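import Pool.Agent.Lib.BAKER.Defs

/-!
Module BakA: Newton interpolation of entire functions with repeated nodes.
-/

namespace Pool.Agent.BK

open Finset

/-- the divided differences -/
noncomputable def bakAg (f : ℂ → ℂ) (x : ℕ → ℕ) : ℕ → ℂ → ℂ
  | 0 => f
  | k + 1 => dslope (bakAg f x k) (x k)

theorem bakA_diff (f : ℂ → ℂ) (hf : Differentiable ℂ f) (x : ℕ → ℕ) (k : ℕ) :
    Differentiable ℂ (bakAg f x k) := by
  induction k with
  | zero => exact hf
  | succ k ih =>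
    rw [← differentiableOn_univ]
    exact (Complex.differentiableOn_dslope Filter.univ_mem).2 ih.differentiableOn

theorem bakA_step (f : ℂ → ℂ) (x : ℕ → ℕ) (k : ℕ) (z : ℂ) :
    bakAg f x k z = bakAg f x k (x k) + (z - x k) * bakAg f x (k + 1) z := by
  have h := sub_smul_dslope (bakAg f x k) (x k : ℂ) z
  rw [smul_eq_mul] at h
  change _ = _ + (z - x k) * dslope (bakAg f x k) (x k) z
  rw [h]
  ring

theorem bakA_expand (f : ℂ → ℂ) (x : ℕ → ℕ) (k : ℕ) (z : ℂ) :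
    f z = ∑ i ∈ range k, bakAg f x i (x i) * ∏ j ∈ range i, (z - x j) +
        (∏ j ∈ range k, (z - x j)) * bakAg f x k z := by
  induction k with
  | zero => simp [bakAg]
  | succ k ih =>
    rw [sum_range_succ, prod_range_succ]
    rw [bakA_step f x k z] at ih
    rw [ih]
    ring

theorem bakA_bound (f : ℂ → ℂ) (hf : Differentiable ℂ f) (x : ℕ → ℕ) (r : ℕ) (hr : 1 ≤ r)
    (hx : ∀ k, x k ≤ r) (Mx : ℝ) (hM : ∀ z : ℂ, ‖z‖ ≤ 9 * r → ‖f z‖ ≤ Mx) (k : ℕ) :
    ∀ z : ℂ, ‖z‖ ≤ 9 * r → ‖bakAg f x k z‖ ≤ Mx / (4 * r) ^ k := by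
  have hr0 : (0 : ℝ) < r := by exact_mod_cast hr
  induction k with
  | zero =>
    intro z hz
    rw [pow_zero, div_one]
    exact hM z hz
  | succ k ih =>
    intro z hz
    have hxk : ‖(x k : ℂ)‖ ≤ r := by
      rw [Complex.norm_natCast]
      exact_mod_cast hx k
    have h9 : (9 * r : ℝ) ≠ 0 := by positivity
    refine Complex.norm_le_of_forall_mem_frontier_norm_le (U := Metric.ball (0 : ℂ) (9 * r))
      Metric.isBounded_ball (bakA_diff f hf x (k + 1)).diffContOnCl (fun w hw => ?_) ?_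
    · rw [frontier_ball _ h9, mem_sphere_zero_iff_norm] at hw
      have h1 := ih w hw.le
      have h2 := ih (x k) (by linarith)
      have h3 := bakA_step f x k w
      have h4 : 8 * (r : ℝ) ≤ ‖w - x k‖ := by
        have := norm_sub_norm_le w (x k : ℂ)
        linarith
      have h5 : ‖w - x k‖ * ‖bakAg f x (k + 1) w‖ ≤ 2 * (Mx / (4 * r) ^ k) := by
        rw [← norm_mul]
        have : (w - x k) * bakAg f x (k + 1) w = bakAg f x k w - bakAg f x k (x k) := by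
          rw [h3]
          ring
        rw [this]
        have := norm_sub_le (bakAg f x k w) (bakAg f x k (x k))
        linarith
      have h6 : 8 * (r : ℝ) * ‖bakAg f x (k + 1) w‖ ≤ 2 * (Mx / (4 * r) ^ k) :=
        (mul_le_mul_of_nonneg_right h4 (norm_nonneg _)).trans h5
      rw [pow_succ, ← div_div, le_div_iff₀ (by positivity)]
      linarith
    · rw [closure_ball _ h9, mem_closedBall_zero_iff]
      exact hz

theorem newton (f : ℂ → ℂ) (hf : Differentiable ℂ f) (x : ℕ → ℕ) (r : ℕ) (hr : 1 ≤ r)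
    (hx : ∀ k, x k ≤ r) (Mx : ℝ) (hM : ∀ z : ℂ, ‖z‖ ≤ 9 * r → ‖f z‖ ≤ Mx) :
    ∃ (c : ℕ → ℂ) (g : ℕ → ℂ → ℂ), (∀ k, Differentiable ℂ (g k)) ∧
      (∀ k, ∀ z : ℂ, f z = ∑ i ∈ range k, c i * ∏ j ∈ range i, (z - x j) +
        (∏ j ∈ range k, (z - x j)) * g k z) ∧
      (∀ k, ∀ z : ℂ, ‖z‖ ≤ 9 * r → ‖g k z‖ ≤ Mx / (4 * r) ^ k) :=
  ⟨fun k => bakAg f x k (x k), bakAg f x, bakA_diff f hf x, bakA_expand f x,
    bakA_bound f hf x r hr hx Mx hM⟩

end Pool.Agent.BK
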