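import Pool.Agent.Lib.BAKER.Defs

/-!
# Taylor coefficients of the Newton expansion
-/

namespace Pool.Agent.BK

open Finset

theorem BakB_iter_eval (P : Polynomial ℂ) (j : ℕ) (z : ℂ) :
    iteratedDeriv j (fun w : ℂ => P.eval w) z = (Polynomial.derivative^[j] P).eval z := by
  induction j generalizing P with
  | zero => simp
  | succ n ih =>
    rw [iteratedDeriv_succ']
    have : deriv (fun w : ℂ => P.eval w) = fun w : ℂ => (Polynomial.derivative P).eval w := by
      funext w; exact P.deriv
    rw [this, ih]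
    rfl

theorem BakB_iter_coeff (P : Polynomial ℂ) (j : ℕ) (z : ℂ) :
    (Polynomial.derivative^[j] P).eval z = (j.factorial : ℂ) * (Polynomial.taylor z P).coeff j := by
  rw [Polynomial.taylor_coeff, ← Polynomial.factorial_smul_hasseDeriv]
  simp

/-- product of the factors of the Newton polynomial -/
theorem BakB_eval_prod (T i : ℕ) (z : ℂ) :
    (∏ k ∈ range i, (Polynomial.X - Polynomial.C (((k / T : ℕ) : ℂ)))).eval z =
      ∏ k ∈ range i, (z - ((k / T : ℕ) : ℂ)) := by
  rw [Polynomial.eval_prod]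
  simp

theorem BakB_taylor_prod (T i l : ℕ) :
    Polynomial.taylor (l : ℂ) (∏ k ∈ range i, (Polynomial.X - Polynomial.C (((k / T : ℕ) : ℂ)))) =
      ∏ k ∈ range i, (Polynomial.X + Polynomial.C ((l : ℂ) - ((k / T : ℕ) : ℂ))) := by
  induction i with
  | zero => simp
  | succ n ih =>
    rw [prod_range_succ, prod_range_succ, Polynomial.taylor_mul, ih]
    congr 1
    simp only [map_sub, Polynomial.taylor_X, Polynomial.taylor_C]
    ring

theorem BakB_coeff_le (a : ℕ → ℂ) (i j : ℕ) :
    ‖(∏ k ∈ range i, (Polynomial.X + Polynomial.C (a k))).coeff j‖ ≤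
      ∏ k ∈ range i, (1 + ‖a k‖) := by
  induction i generalizing j with
  | zero =>
    simp only [range_zero, prod_empty, Polynomial.coeff_one]
    split_ifs <;> simp
  | succ n ih =>
    rw [prod_range_succ, prod_range_succ, mul_add, Polynomial.coeff_add, Polynomial.coeff_mul_C]
    have hP : 0 ≤ ∏ k ∈ range n, (1 + ‖a k‖) := prod_nonneg fun k _ => by positivity
    have h1 : ‖((∏ k ∈ range n, (Polynomial.X + Polynomial.C (a k))) * Polynomial.X).coeff j‖ ≤
        ∏ k ∈ range n, (1 + ‖a k‖) := by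
      cases j with
      | zero => simpa using hP
      | succ j => rw [Polynomial.coeff_mul_X]; exact ih j
    calc _ ≤ _ := norm_add_le _ _
      _ ≤ (∏ k ∈ range n, (1 + ‖a k‖)) + (∏ k ∈ range n, (1 + ‖a k‖)) * ‖a n‖ := by
          refine add_le_add h1 ?_
          rw [norm_mul]
          exact mul_le_mul_of_nonneg_right (ih j) (norm_nonneg _)
      _ = _ := by ring

theorem BakB_err (g : ℂ → ℂ) (hg : Differentiable ℂ g) (T l j : ℕ) (hj : j < T) :
    iteratedDeriv j (fun z : ℂ => (∏ k ∈ range (l * T + j + 1), (z - ((k / T : ℕ) : ℂ))) * g z)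
      (l : ℂ) = 0 := by
  have hsplit : ∀ z : ℂ, (∏ k ∈ range (l * T + j + 1), (z - ((k / T : ℕ) : ℂ))) * g z =
      (z - (l : ℂ)) ^ (j + 1) * ((∏ k ∈ range (l * T), (z - ((k / T : ℕ) : ℂ))) * g z) := by
    intro z
    rw [add_assoc, prod_range_add]
    have : ∏ x ∈ range (j + 1), (z - (((l * T + x) / T : ℕ) : ℂ)) = (z - (l : ℂ)) ^ (j + 1) := by
      rw [prod_congr rfl (g := fun _ => z - (l : ℂ)), prod_const, card_range]
      intro x hx
      have hx' : x < T := lt_of_lt_of_le (mem_range.mp hx) hj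
      have : (l * T + x) / T = l := by
        rw [mul_comm, Nat.mul_add_div (by omega), Nat.div_eq_of_lt hx', add_zero]
      rw [this]
    rw [this]
    ring
  have hH : Differentiable ℂ (fun z : ℂ => (∏ k ∈ range (l * T), (z - ((k / T : ℕ) : ℂ))) * g z) := by
    refine Differentiable.mul ?_ hg
    fun_prop
  have hE : Differentiable ℂ
      (fun z : ℂ => (∏ k ∈ range (l * T + j + 1), (z - ((k / T : ℕ) : ℂ))) * g z) := by
    refine Differentiable.mul ?_ hg
    fun_prop
  have han := hE.analyticAt (l : ℂ)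
  have hord : ((j + 1 : ℕ) : ℕ∞) ≤ analyticOrderAt
      (fun z : ℂ => (∏ k ∈ range (l * T + j + 1), (z - ((k / T : ℕ) : ℂ))) * g z) (l : ℂ) := by
    rw [natCast_le_analyticOrderAt han]
    refine ⟨_, hH.analyticAt (l : ℂ), Filter.Eventually.of_forall fun z => ?_⟩
    rw [hsplit z, smul_eq_mul]
  rw [natCast_le_analyticOrderAt_iff_iteratedDeriv_eq_zero han] at hord
  exact hord j (Nat.lt_succ_self j)

theorem taylor_coeff (f g : ℂ → ℂ) (hf : Differentiable ℂ f) (hg : Differentiable ℂ g)
    (R T l j : ℕ) (hl : l < R) (hj : j < T) (c : ℕ → ℂ)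
    (h : ∀ z : ℂ, f z = ∑ i ∈ range (l * T + j + 1), c i * ∏ k ∈ range i, (z - (k / T : ℕ)) +
      (∏ k ∈ range (l * T + j + 1), (z - (k / T : ℕ))) * g z) :
    ‖c (l * T + j)‖ ≤ ‖iteratedDeriv j f l‖ / j.factorial +
      ∑ i ∈ range (l * T + j), ‖c i‖ * (R : ℝ) ^ i := by
  classical
  set P : ℕ → Polynomial ℂ := fun i => ∏ k ∈ range i, (Polynomial.X - Polynomial.C (((k / T : ℕ) : ℂ)))
    with hP
  set t : ℕ → ℂ := fun i => (Polynomial.taylor (l : ℂ) (P i)).coeff j with ht
  have hT : 0 < T := by omega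
  -- the derivative of f
  have hfd : iteratedDeriv j f (l : ℂ) =
      (j.factorial : ℂ) * ∑ i ∈ range (l * T + j + 1), c i * t i := by
    have hfe : f = (fun z : ℂ => (∑ i ∈ range (l * T + j + 1), Polynomial.C (c i) * P i).eval z) +
        (fun z : ℂ => (∏ k ∈ range (l * T + j + 1), (z - ((k / T : ℕ) : ℂ))) * g z) := by
      funext z
      rw [Pi.add_apply, Polynomial.eval_finsetSum, h z]
      congr 1
      refine sum_congr rfl fun i _ => ?_
      rw [Polynomial.eval_mul, Polynomial.eval_C, hP, BakB_eval_prod]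
    have hE : Differentiable ℂ
        (fun z : ℂ => (∏ k ∈ range (l * T + j + 1), (z - ((k / T : ℕ) : ℂ))) * g z) := by
      refine Differentiable.mul ?_ hg
      fun_prop
    rw [hfe, iteratedDeriv_add, BakB_err g hg T l j hj, add_zero, BakB_iter_eval, BakB_iter_coeff]
    · congr 1
      rw [map_sum, Polynomial.finsetSum_coeff]
      refine sum_congr rfl fun i _ => ?_
      rw [Polynomial.taylor_mul, Polynomial.taylor_C, Polynomial.coeff_C_mul]
    · exact (Polynomial.differentiable _).contDiff.contDiffAt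
    · exact hE.contDiff.contDiffAt
  have hjf : ((j.factorial : ℕ) : ℂ) ≠ 0 := by exact_mod_cast j.factorial_ne_zero
  have hsum : c (l * T + j) * t (l * T + j) =
      iteratedDeriv j f (l : ℂ) / (j.factorial : ℂ) - ∑ i ∈ range (l * T + j), c i * t i := by
    rw [hfd, mul_div_cancel_left₀ _ hjf, sum_range_succ]
    ring
  -- bound of t
  have htle : ∀ i ∈ range (l * T + j), ‖t i‖ ≤ (R : ℝ) ^ i := by
    intro i hi
    simp only [ht, hP]
    rw [BakB_taylor_prod]
    refine (BakB_coeff_le _ i j).trans ?_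
    have hRi : (R : ℝ) ^ i = ∏ _k ∈ range i, (R : ℝ) := by rw [prod_const, card_range]
    rw [hRi]
    refine prod_le_prod (fun k _ => by positivity) fun k hk => ?_
    have hk' : k < l * T + j := lt_trans (mem_range.mp hk) (mem_range.mp hi)
    have hkl : k / T ≤ l := by
      rw [Nat.div_le_iff_le_mul_add_pred hT]
      have : l * T = T * l := mul_comm _ _
      omega
    have : (l : ℂ) - ((k / T : ℕ) : ℂ) = ((l - k / T : ℕ) : ℂ) := by
      push_cast [hkl]; rfl
    rw [this, Complex.norm_natCast]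
    have : 1 + (l - k / T) ≤ R := by
      have h5 := Nat.sub_le l (k / T)
      omega
    exact_mod_cast this
  have htge : 1 ≤ ‖t (l * T + j)‖ := by
    simp only [ht, hP]
    rw [BakB_taylor_prod, prod_range_add]
    have h1 : ∏ x ∈ range j, (Polynomial.X + Polynomial.C ((l : ℂ) - (((l * T + x) / T : ℕ) : ℂ))) =
        Polynomial.X ^ j := by
      rw [prod_congr rfl (g := fun _ => Polynomial.X), prod_const, card_range]
      intro x hx
      have hx' : x < T := lt_trans (mem_range.mp hx) hj
      have : (l * T + x) / T = l := by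
        rw [mul_comm, Nat.mul_add_div (by omega), Nat.div_eq_of_lt hx', add_zero]
      rw [this]; simp
    rw [h1]
    have h2 : ((∏ x ∈ range (l * T), (Polynomial.X + Polynomial.C ((l : ℂ) - ((x / T : ℕ) : ℂ)))) *
        Polynomial.X ^ j).coeff j =
        ∏ x ∈ range (l * T), ((l - x / T : ℕ) : ℂ) := by
      have := Polynomial.coeff_mul_X_pow
        (∏ x ∈ range (l * T), (Polynomial.X + Polynomial.C ((l : ℂ) - ((x / T : ℕ) : ℂ)))) j 0
      rw [zero_add] at this
      rw [this, Polynomial.coeff_zero_eq_eval_zero, Polynomial.eval_prod]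
      refine prod_congr rfl fun x hx => ?_
      have hxl : x / T ≤ l := by
        have : x / T < l := by
          rw [Nat.div_lt_iff_lt_mul hT]; exact mem_range.mp hx
        exact this.le
      push_cast [hxl]
      simp
    rw [h2, norm_prod]
    have h3 : ∀ x ∈ range (l * T), (1 : ℝ) ≤ ‖((l - x / T : ℕ) : ℂ)‖ := by
      intro x hx
      have hxl : x / T < l := by
        rw [Nat.div_lt_iff_lt_mul hT]; exact mem_range.mp hx
      rw [Complex.norm_natCast]
      have : 1 ≤ l - x / T := by omega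
      exact_mod_cast this
    calc (1 : ℝ) = ∏ _x ∈ range (l * T), (1 : ℝ) := by simp
      _ ≤ _ := prod_le_prod (fun _ _ => zero_le_one) h3
  calc ‖c (l * T + j)‖ ≤ ‖c (l * T + j)‖ * ‖t (l * T + j)‖ :=
        le_mul_of_one_le_right (norm_nonneg _) htge
    _ = ‖c (l * T + j) * t (l * T + j)‖ := (norm_mul _ _).symm
    _ ≤ ‖iteratedDeriv j f (l : ℂ) / (j.factorial : ℂ)‖ + ‖∑ i ∈ range (l * T + j), c i * t i‖ := by
        rw [hsum]; exact norm_sub_le _ _
    _ ≤ _ := by
        refine add_le_add ?_ ?_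
        · rw [norm_div, Complex.norm_natCast]
        · refine (norm_sum_le _ _).trans (sum_le_sum fun i hi => ?_)
          rw [norm_mul]
          exact mul_le_mul_of_nonneg_left (htle i hi) (norm_nonneg _)

end Pool.Agent.BK
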