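import Pool.Agent.Lib.BAKER.BakA
import Pool.Agent.Lib.BAKER.BakB

/-!
# The approximate Schwarz lemma
-/

namespace Pool.Agent.BK

open Finset

theorem BakC_coeff (f : ℂ → ℂ) (hf : Differentiable ℂ f) (R T r : ℕ) (hR : 1 ≤ R) (hT : 1 ≤ T)
    (hr : R ≤ r) (ε : ℝ) (hε : 0 ≤ ε)
    (hd : ∀ l < R, ∀ j < T, ‖iteratedDeriv j f (l : ℂ)‖ ≤ ε)
    (c : ℕ → ℂ) (g : ℕ → ℂ → ℂ) (hg : ∀ k, Differentiable ℂ (g k))
    (h : ∀ k, ∀ z : ℂ, f z = ∑ i ∈ range k, c i * ∏ j ∈ range i,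
        (z - ((if j < R * T then j / T else 0 : ℕ) : ℂ)) +
        (∏ j ∈ range k, (z - ((if j < R * T then j / T else 0 : ℕ) : ℂ))) * g k z)
    (k : ℕ) (hk : k < R * T) : ‖c k‖ ≤ ε * (2 * (R : ℝ) ^ (R * T)) ^ k := by
  induction k using Nat.strong_induction_on with
  | _ k ih =>
    set q : ℝ := 2 * (R : ℝ) ^ (R * T) with hq
    have hR1 : (1 : ℝ) ≤ (R : ℝ) := by exact_mod_cast hR
    have hRN : (1 : ℝ) ≤ (R : ℝ) ^ (R * T) := one_le_pow₀ hR1
    have hkl : k / T < R := by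
      rw [Nat.div_lt_iff_lt_mul hT]; exact hk
    have hkj : k % T < T := Nat.mod_lt _ hT
    have hkd : k / T * T + k % T = k := Nat.div_add_mod' k T
    have hz : ∀ z : ℂ, f z = ∑ i ∈ range (k / T * T + k % T + 1), c i * ∏ k ∈ range i,
        (z - (k / T : ℕ)) +
        (∏ k ∈ range (k / T * T + k % T + 1), (z - (k / T : ℕ))) * g (k + 1) z := by
      intro z
      rw [hkd, h (k + 1) z]
      have hpr : ∀ i ≤ k + 1, ∏ j ∈ range i, (z - ((if j < R * T then j / T else 0 : ℕ) : ℂ)) =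
          ∏ j ∈ range i, (z - ((j / T : ℕ) : ℂ)) := by
        intro i hi
        refine prod_congr rfl fun j hj => ?_
        have : j < R * T := by
          have := mem_range.mp hj
          omega
        rw [if_pos this]
      rw [hpr (k + 1) le_rfl]
      congr 1
      refine sum_congr rfl fun i hi => ?_
      rw [hpr i (by have := mem_range.mp hi; omega)]
    have h1 := taylor_coeff f (g (k + 1)) hf (hg (k + 1)) R T (k / T) (k % T) hkl hkj c hz
    rw [hkd] at h1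
    have h2 : ‖iteratedDeriv (k % T) f ((k / T : ℕ) : ℂ)‖ / (k % T).factorial ≤ ε := by
      refine (div_le_self (norm_nonneg _) ?_).trans (hd _ hkl _ hkj)
      exact_mod_cast Nat.one_le_iff_ne_zero.mpr (Nat.factorial_ne_zero _)
    have h3 : ∑ i ∈ range k, ‖c i‖ * (R : ℝ) ^ i ≤ ∑ i ∈ range k, ε * (R : ℝ) ^ (R * T) * q ^ i := by
      refine sum_le_sum fun i hi => ?_
      have hik := mem_range.mp hi
      have h4 := ih i hik (by omega)
      have h5 : (R : ℝ) ^ i ≤ (R : ℝ) ^ (R * T) := pow_le_pow_right₀ hR1 (by omega)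
      calc ‖c i‖ * (R : ℝ) ^ i ≤ (ε * q ^ i) * (R : ℝ) ^ (R * T) := by
            refine mul_le_mul h4 h5 (by positivity) ?_
            positivity
        _ = _ := by ring
    rw [← mul_sum] at h3
    have h6 : (∑ i ∈ range k, q ^ i) * (q - 1) = q ^ k - 1 := geom_sum_mul q k
    have h7 : (0 : ℝ) ≤ ∑ i ∈ range k, q ^ i := sum_nonneg fun i _ => by positivity
    have h8 : (R : ℝ) ^ (R * T) * ∑ i ∈ range k, q ^ i ≤ q ^ k - 1 := by
      rw [← h6, mul_comm]
      refine mul_le_mul_of_nonneg_left ?_ h7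
      rw [hq]; linarith
    calc ‖c k‖ ≤ _ := h1
      _ ≤ ε + ε * (R : ℝ) ^ (R * T) * ∑ i ∈ range k, q ^ i := add_le_add h2 h3
      _ ≤ ε * q ^ k := by nlinarith [mul_le_mul_of_nonneg_left h8 hε]

theorem asl (f : ℂ → ℂ) (hf : Differentiable ℂ f) (R T r : ℕ) (hR : 1 ≤ R) (hT : 1 ≤ T)
    (hr : R ≤ r) (ε Mx : ℝ) (hε : 0 ≤ ε)
    (hd : ∀ l < R, ∀ j < T, ‖iteratedDeriv j f (l : ℂ)‖ ≤ ε)
    (hM : ∀ z : ℂ, ‖z‖ ≤ 9 * r → ‖f z‖ ≤ Mx) :
    ∀ z : ℂ, ‖z‖ ≤ r → ‖f z‖ ≤ Mx / 2 ^ (R * T) + ε * (4 * r) ^ (2 * (R * T) ^ 2) := by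
  intro z hz
  have hr1 : 1 ≤ r := hR.trans hr
  have hr1' : (1 : ℝ) ≤ (r : ℝ) := by exact_mod_cast hr1
  have hR1 : (1 : ℝ) ≤ (R : ℝ) := by exact_mod_cast hR
  have hx : ∀ k, (fun j => if j < R * T then j / T else 0) k ≤ r := by
    intro k
    dsimp only
    split_ifs with hk
    · have : k / T < R := by
        rw [Nat.div_lt_iff_lt_mul hT]; exact hk
      omega
    · omega
  obtain ⟨c, g, hg, hN, hgM⟩ := newton f hf (fun j => if j < R * T then j / T else 0) r hr1 hx Mx hM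
  have hc := BakC_coeff f hf R T r hR hT hr ε hε hd c g hg hN
  set N : ℕ := R * T with hNdef
  have hN1 : 1 ≤ N := Nat.mul_pos hR hT
  set q : ℝ := 2 * (R : ℝ) ^ N with hq
  have hRN : (1 : ℝ) ≤ (R : ℝ) ^ N := one_le_pow₀ hR1
  have hfac : ∀ i, ‖∏ j ∈ range i, (z - ((if j < N then j / T else 0 : ℕ) : ℂ))‖ ≤ (2 * (r : ℝ)) ^ i := by
    intro i
    rw [norm_prod]
    have hRi : (2 * (r : ℝ)) ^ i = ∏ _k ∈ range i, (2 * (r : ℝ)) := by rw [prod_const, card_range]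
    rw [hRi]
    refine prod_le_prod (fun k _ => norm_nonneg _) fun k _ => ?_
    refine (norm_sub_le _ _).trans ?_
    have h1 : ‖((if k < N then k / T else 0 : ℕ) : ℂ)‖ ≤ r := by
      rw [Complex.norm_natCast]
      exact_mod_cast hx k
    linarith
  have hz9 : ‖z‖ ≤ 9 * r := by linarith
  have hgz := hgM N z hz9
  set Q : ℝ := 2 * (r : ℝ) * q with hQ
  have hQ2 : 2 ≤ Q := by
    rw [hQ, hq]
    nlinarith
  have hsumQ : ∑ i ∈ range N, Q ^ i ≤ Q ^ N := by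
    have h6 : (∑ i ∈ range N, Q ^ i) * (Q - 1) = Q ^ N - 1 := geom_sum_mul Q N
    have h7 : (0 : ℝ) ≤ ∑ i ∈ range N, Q ^ i := sum_nonneg fun i _ => by positivity
    nlinarith
  have hQN : Q ^ N ≤ (4 * (r : ℝ)) ^ (2 * N ^ 2) := by
    have h1 : Q ≤ (4 * (r : ℝ)) ^ (N + 1) := by
      have h2 : (R : ℝ) ^ N ≤ (4 * (r : ℝ)) ^ N := by
        refine pow_le_pow_left₀ (by positivity) ?_ N
        have : (R : ℝ) ≤ r := by exact_mod_cast hr
        linarith
      calc Q = 4 * (r : ℝ) * (R : ℝ) ^ N := by rw [hQ, hq]; ring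
        _ ≤ 4 * (r : ℝ) * (4 * (r : ℝ)) ^ N := mul_le_mul_of_nonneg_left h2 (by positivity)
        _ = _ := by ring
    calc Q ^ N ≤ ((4 * (r : ℝ)) ^ (N + 1)) ^ N := pow_le_pow_left₀ (by linarith) h1 N
      _ = (4 * (r : ℝ)) ^ ((N + 1) * N) := by rw [← pow_mul]
      _ ≤ _ := by
          refine pow_le_pow_right₀ (by linarith) ?_
          nlinarith
  have hMx : (2 * (r : ℝ)) ^ N * (Mx / (4 * (r : ℝ)) ^ N) = Mx / 2 ^ N := by
    have h4 : (4 * (r : ℝ)) ^ N = (2 * (r : ℝ)) ^ N * 2 ^ N := by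
      rw [← mul_pow]; congr 1; ring
    have h5 : (2 * (r : ℝ)) ^ N ≠ 0 := by positivity
    rw [h4]
    field_simp
  rw [hN N z]
  calc ‖∑ i ∈ range N, c i * ∏ j ∈ range i, (z - ((if j < N then j / T else 0 : ℕ) : ℂ)) +
        (∏ j ∈ range N, (z - ((if j < N then j / T else 0 : ℕ) : ℂ))) * g N z‖
      ≤ ‖∑ i ∈ range N, c i * ∏ j ∈ range i, (z - ((if j < N then j / T else 0 : ℕ) : ℂ))‖ +
        ‖(∏ j ∈ range N, (z - ((if j < N then j / T else 0 : ℕ) : ℂ))) * g N z‖ := norm_add_le _ _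
    _ ≤ ε * Q ^ N + (2 * (r : ℝ)) ^ N * (Mx / (4 * (r : ℝ)) ^ N) := by
        refine add_le_add ?_ ?_
        · refine (norm_sum_le _ _).trans ?_
          calc ∑ i ∈ range N, ‖c i * ∏ j ∈ range i, (z - ((if j < N then j / T else 0 : ℕ) : ℂ))‖
              ≤ ∑ i ∈ range N, ε * Q ^ i := by
                refine sum_le_sum fun i hi => ?_
                rw [norm_mul]
                calc _ ≤ (ε * q ^ i) * (2 * (r : ℝ)) ^ i :=
                      mul_le_mul (hc i (mem_range.mp hi)) (hfac i) (norm_nonneg _) (by positivity)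
                  _ = ε * Q ^ i := by
                      have : Q ^ i = (2 * (r : ℝ)) ^ i * q ^ i := by rw [hQ, mul_pow (2 * (r : ℝ)) q i]
                      rw [this]; ring
            _ = ε * ∑ i ∈ range N, Q ^ i := by rw [mul_sum]
            _ ≤ ε * Q ^ N := mul_le_mul_of_nonneg_left hsumQ hε
        · rw [norm_mul]
          exact mul_le_mul (hfac N) hgz (norm_nonneg _) (by positivity)
    _ ≤ _ := by
        rw [hMx, add_comm]
        have := mul_le_mul_of_nonneg_left hQN hε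
        linarith

end Pool.Agent.BK
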