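import Pool.Agent.Lib.BAKER.Defs

/-!
# Derivatives of the auxiliary functions
-/

namespace Pool.Agent.BK

open Finset

theorem ff_diff {d L : ℕ} (p : Fin (d + 1) → ℕ) (b : Fin (d + 1) → ℤ)
    (c : (Fin (d + 1) → Fin (L + 1)) → ℤ) (m : Fin d → ℕ) : Differentiable ℂ (ff p b c m) := by
  unfold ff
  fun_prop

theorem BakD_AA {d L : ℕ} (p : Fin (d + 1) → ℕ) (b : Fin (d + 1) → ℤ) (hb : b (Fin.last d) ≠ 0)
    (a : Fin (d + 1) → Fin (L + 1)) :
    ((AA p b a : ℝ) : ℂ) = ∑ r : Fin d, ((b (Fin.last d) : ℂ))⁻¹ *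
      ((Real.log (p r.castSucc) : ℝ) : ℂ) *
      ((b (Fin.last d) * ((a r.castSucc : ℕ) : ℤ) -
        b r.castSucc * ((a (Fin.last d) : ℕ) : ℤ) : ℤ) : ℂ) := by
  have hb' : (b (Fin.last d) : ℂ) ≠ 0 := by exact_mod_cast hb
  unfold AA
  rw [Complex.ofReal_sum]
  refine Finset.sum_congr rfl fun r _ => ?_
  push_cast
  field_simp

theorem BakD_qq {d L : ℕ} (b : Fin (d + 1) → ℤ) (m : Fin d → ℕ) (a : Fin (d + 1) → Fin (L + 1))
    (r : Fin d) :
    qq b (m + Pi.single r 1) a = (b (Fin.last d) * ((a r.castSucc : ℕ) : ℤ) -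
      b r.castSucc * ((a (Fin.last d) : ℕ) : ℤ)) * qq b m a := by
  unfold qq
  simp only [Pi.add_apply, pow_add, Finset.prod_mul_distrib]
  rw [mul_comm]
  congr 1
  rw [Finset.prod_eq_single r]
  · rw [Pi.single_eq_same, pow_one]
  · intro s _ hs
    rw [Pi.single_eq_of_ne hs, pow_zero]
  · intro h
    exact absurd (Finset.mem_univ r) h

theorem BakD_deriv {d L : ℕ} (p : Fin (d + 1) → ℕ) (b : Fin (d + 1) → ℤ)
    (hb : b (Fin.last d) ≠ 0) (c : (Fin (d + 1) → Fin (L + 1)) → ℤ) (m : Fin d → ℕ) :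
    deriv (ff p b c m) = fun z => ∑ r : Fin d, ((b (Fin.last d) : ℂ)⁻¹ *
      ((Real.log (p r.castSucc) : ℝ) : ℂ)) * ff p b c (m + Pi.single r 1) z := by
  funext z
  have h1 : HasDerivAt (ff p b c m) (∑ a : Fin (d + 1) → Fin (L + 1),
      (c a : ℂ) * (qq b m a : ℂ) * (Complex.exp ((AA p b a : ℝ) * z) * ((AA p b a : ℝ) * 1))) z := by
    unfold ff
    apply HasDerivAt.fun_sum
    intro a _
    apply HasDerivAt.const_mul
    exact ((hasDerivAt_id z).const_mul _).cexp
  rw [h1.deriv]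
  unfold ff
  simp only [Finset.mul_sum]
  rw [Finset.sum_comm]
  refine Finset.sum_congr rfl fun a _ => ?_
  rw [BakD_AA p b hb a, mul_one, Finset.mul_sum, Finset.mul_sum]
  refine Finset.sum_congr rfl fun r _ => ?_
  rw [← BakD_AA p b hb a, BakD_qq]
  push_cast
  ring

theorem BakD_iter {d L : ℕ} (p : Fin (d + 1) → ℕ) (b : Fin (d + 1) → ℤ)
    (hb : b (Fin.last d) ≠ 0) (c : (Fin (d + 1) → Fin (L + 1)) → ℤ) (m : Fin d → ℕ) (j : ℕ)
    (z : ℂ) :
    iteratedDeriv (j + 1) (ff p b c m) z = ∑ r : Fin d, ((b (Fin.last d) : ℂ)⁻¹ *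
      ((Real.log (p r.castSucc) : ℝ) : ℂ)) * iteratedDeriv j (ff p b c (m + Pi.single r 1)) z := by
  have hd : ∀ k : Fin d → ℕ, ContDiffAt ℂ j (ff p b c k) z := fun k =>
    (ff_diff p b c k).contDiff.contDiffAt
  rw [iteratedDeriv_succ', BakD_deriv p b hb c m, iteratedDeriv_fun_sum]
  · refine Finset.sum_congr rfl fun r _ => ?_
    rw [iteratedDeriv_const_mul_field]
  · intro r _
    exact contDiffAt_const.mul (hd _)

theorem ff_deriv {d L M : ℕ} (hM : 3 ≤ M) (p : Fin (d + 1) → ℕ) (hp1 : ∀ i, 1 ≤ p i)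
    (hpM : ∀ i, p i ≤ M)
    (b : Fin (d + 1) → ℤ) (hb : b (Fin.last d) ≠ 0) (c : (Fin (d + 1) → Fin (L + 1)) → ℤ)
    (j : ℕ) (E : ℝ) (z : ℂ) (m : Fin d → ℕ)
    (h : ∀ k : Fin d → ℕ, (∀ r, k r ≤ j) → ‖ff p b c (m + k) z‖ ≤ E) :
    ‖iteratedDeriv j (ff p b c m) z‖ ≤ (d * Real.log M) ^ j * E := by
  induction j generalizing m with
  | zero =>
    rw [iteratedDeriv_zero, pow_zero, one_mul]
    have := h 0 (fun r => le_rfl)
    rwa [add_zero] at this
  | succ j ih =>
    have hlogM : 0 ≤ Real.log M := Real.log_natCast_nonneg M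
    have hb1 : ‖(b (Fin.last d) : ℂ)⁻¹‖ ≤ 1 := by
      rw [norm_inv, Complex.norm_intCast]
      apply inv_le_one_of_one_le₀
      have : 1 ≤ |b (Fin.last d)| := Int.one_le_abs hb
      exact_mod_cast this
    have hE : 0 ≤ (d * Real.log M) ^ j * E := by
      apply mul_nonneg (by positivity)
      exact (norm_nonneg _).trans (h 0 (fun r => Nat.zero_le _))
    rw [BakD_iter p b hb c m j z]
    refine (norm_sum_le _ _).trans ?_
    have hterm : ∀ r : Fin d, ‖((b (Fin.last d) : ℂ)⁻¹ * ((Real.log (p r.castSucc) : ℝ) : ℂ)) *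
        iteratedDeriv j (ff p b c (m + Pi.single r 1)) z‖ ≤
        Real.log M * ((d * Real.log M) ^ j * E) := by
      intro r
      rw [norm_mul, norm_mul, Complex.norm_real, Real.norm_eq_abs,
        abs_of_nonneg (Real.log_natCast_nonneg _)]
      have h1 : Real.log (p r.castSucc) ≤ Real.log M := by
        apply Real.log_le_log
        · exact_mod_cast hp1 r.castSucc
        · exact_mod_cast hpM r.castSucc
      have h2 : ‖(b (Fin.last d) : ℂ)⁻¹‖ * Real.log (p r.castSucc) ≤ Real.log M := by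
        calc ‖(b (Fin.last d) : ℂ)⁻¹‖ * Real.log (p r.castSucc)
            ≤ 1 * Real.log (p r.castSucc) :=
              mul_le_mul_of_nonneg_right hb1 (Real.log_natCast_nonneg _)
          _ ≤ Real.log M := by rw [one_mul]; exact h1
      refine mul_le_mul h2 (ih _ fun k hk => ?_) (norm_nonneg _) hlogM
      rw [add_assoc]
      apply h
      intro s
      rw [Pi.add_apply]
      have h3 : (Pi.single r 1 : Fin d → ℕ) s ≤ 1 := by
        by_cases hs : s = r
        · subst hs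
          rw [Pi.single_eq_same]
        · rw [Pi.single_eq_of_ne hs]
          exact Nat.zero_le _
      have := hk s
      omega
    refine (Finset.sum_le_sum fun r _ => hterm r).trans ?_
    rw [Finset.sum_const, Finset.card_univ, Fintype.card_fin, nsmul_eq_mul, pow_succ]
    apply le_of_eq
    ring

end Pool.Agent.BK
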