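import Pool.Agent.Lib.BAKER.Defs

/-!
# Baker: bounds for the auxiliary functions
-/

namespace Pool.Agent.BK

open Finset

theorem BakE_logM {M : ℕ} (hM : 3 ≤ M) : 1 ≤ Real.log M := by
  have h3 : (3 : ℝ) ≤ M := by exact_mod_cast hM
  have hexp : Real.exp 1 ≤ 3 := by
    have := Real.exp_one_lt_d9
    linarith
  rw [Real.le_log_iff_exp_le (by linarith)]
  linarith

theorem BakE_AA {d L : ℕ} (p : Fin (d + 1) → ℕ) (b : Fin (d + 1) → ℤ)
    (hb : b (Fin.last d) ≠ 0) (a : Fin (d + 1) → Fin (L + 1)) :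
    AA p b a = ∑ r : Fin (d + 1), ((a r : ℕ) : ℝ) * Real.log (p r) -
      ((a (Fin.last d) : ℕ) : ℝ) * (LL p b / (b (Fin.last d) : ℝ)) := by
  have hb' : (b (Fin.last d) : ℝ) ≠ 0 := by exact_mod_cast hb
  have hA : AA p b a = ∑ r : Fin d, ((a r.castSucc : ℕ) : ℝ) * Real.log (p r.castSucc) -
      ((a (Fin.last d) : ℕ) : ℝ) / (b (Fin.last d) : ℝ) *
        ∑ r : Fin d, (b r.castSucc : ℝ) * Real.log (p r.castSucc) := by
    unfold AA
    rw [Finset.mul_sum, ← Finset.sum_sub_distrib]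
    refine Finset.sum_congr rfl fun r _ => ?_
    ring
  have hLLe : LL p b = ∑ r : Fin d, (b r.castSucc : ℝ) * Real.log (p r.castSucc) +
      (b (Fin.last d) : ℝ) * Real.log (p (Fin.last d)) := by
    unfold LL
    rw [Fin.sum_univ_castSucc]
  rw [hA, hLLe, Fin.sum_univ_castSucc]
  field_simp
  ring

theorem AA_bound {d L M : ℕ} (hM : 3 ≤ M) (p : Fin (d + 1) → ℕ) (hp1 : ∀ i, 1 ≤ p i)
    (hpM : ∀ i, p i ≤ M) (b : Fin (d + 1) → ℤ) (hb : b (Fin.last d) ≠ 0) (hL : |LL p b| ≤ 1)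
    (a : Fin (d + 1) → Fin (L + 1)) :
    |AA p b a| ≤ 2 * (d + 1) * L * Real.log M := by
  have hlog := BakE_logM hM
  have hb1 : (1 : ℝ) ≤ |(b (Fin.last d) : ℝ)| := by
    have : (1 : ℤ) ≤ |b (Fin.last d)| := Int.one_le_abs hb
    exact_mod_cast this
  have haL : ∀ r, ((a r : ℕ) : ℝ) ≤ L := by
    intro r
    have := (a r).2
    exact_mod_cast Nat.lt_succ_iff.mp this
  have h1 : |∑ r : Fin (d + 1), ((a r : ℕ) : ℝ) * Real.log (p r)| ≤
      (d + 1) * (L * Real.log M) := by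
    refine (Finset.abs_sum_le_sum_abs _ _).trans ?_
    have : ∀ r ∈ (Finset.univ : Finset (Fin (d + 1))),
        |((a r : ℕ) : ℝ) * Real.log (p r)| ≤ L * Real.log M := by
      intro r _
      have hl0 : 0 ≤ Real.log (p r) := Real.log_nonneg (by exact_mod_cast hp1 r)
      have hlM : Real.log (p r) ≤ Real.log M :=
        Real.log_le_log (by exact_mod_cast hp1 r) (by exact_mod_cast hpM r)
      rw [abs_of_nonneg (mul_nonneg (Nat.cast_nonneg _) hl0)]
      exact mul_le_mul (haL r) hlM hl0 (Nat.cast_nonneg _)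
    refine (Finset.sum_le_sum this).trans ?_
    rw [Finset.sum_const, Finset.card_univ, Fintype.card_fin, nsmul_eq_mul]
    push_cast
    exact le_refl _
  have h2 : |((a (Fin.last d) : ℕ) : ℝ) * (LL p b / (b (Fin.last d) : ℝ))| ≤ L := by
    rw [abs_mul, abs_div, abs_of_nonneg (Nat.cast_nonneg _)]
    have h3 : |LL p b| / |(b (Fin.last d) : ℝ)| ≤ 1 := by
      rw [div_le_one (by linarith)]
      linarith
    calc ((a (Fin.last d) : ℕ) : ℝ) * (|LL p b| / |(b (Fin.last d) : ℝ)|)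
        ≤ (L : ℝ) * 1 := mul_le_mul (haL _) h3 (by positivity) (Nat.cast_nonneg _)
      _ = L := mul_one _
  rw [BakE_AA p b hb a]
  have h4 := abs_sub (∑ r : Fin (d + 1), ((a r : ℕ) : ℝ) * Real.log (p r))
    (((a (Fin.last d) : ℕ) : ℝ) * (LL p b / (b (Fin.last d) : ℝ)))
  have hL0 : (0 : ℝ) ≤ L := Nat.cast_nonneg _
  have hd0 : (0 : ℝ) ≤ d := Nat.cast_nonneg _
  have h5 : (L : ℝ) ≤ (d + 1) * (L * Real.log M) := by
    have : (1 : ℝ) ≤ (d + 1) * Real.log M := by nlinarith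
    nlinarith
  linarith

theorem qq_bound {d L H K : ℕ} (hL : 1 ≤ L) (hH : 1 ≤ H) (b : Fin (d + 1) → ℤ)
    (hbH : ∀ i, |b i| ≤ H) (m : Fin d → ℕ) (hm : ∀ r, m r ≤ K) (a : Fin (d + 1) → Fin (L + 1)) :
    |qq b m a| ≤ (2 * H * L) ^ (d * K) := by
  have haL : ∀ r, ((a r : ℕ) : ℤ) ≤ L := by
    intro r
    have := (a r).2
    exact_mod_cast Nat.lt_succ_iff.mp this
  have h1 : (1 : ℤ) ≤ 2 * H * L := by
    have : 1 ≤ 2 * H * L := by nlinarith
    exact_mod_cast this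
  unfold qq
  rw [Finset.abs_prod]
  have key : ∀ r ∈ (Finset.univ : Finset (Fin d)),
      |(b (Fin.last d) * ((a r.castSucc : ℕ) : ℤ) -
        b r.castSucc * ((a (Fin.last d) : ℕ) : ℤ)) ^ m r| ≤ (2 * H * L : ℤ) ^ K := by
    intro r _
    rw [abs_pow]
    have h2 : |b (Fin.last d) * ((a r.castSucc : ℕ) : ℤ) -
        b r.castSucc * ((a (Fin.last d) : ℕ) : ℤ)| ≤ 2 * H * L := by
      refine (abs_sub _ _).trans ?_
      rw [abs_mul, abs_mul, abs_of_nonneg (Int.natCast_nonneg (a r.castSucc : ℕ)),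
        abs_of_nonneg (Int.natCast_nonneg (a (Fin.last d) : ℕ))]
      have e1 : |b (Fin.last d)| * ((a r.castSucc : ℕ) : ℤ) ≤ H * L :=
        mul_le_mul (hbH _) (haL _) (Int.natCast_nonneg _) (Int.natCast_nonneg _)
      have e2 : |b r.castSucc| * ((a (Fin.last d) : ℕ) : ℤ) ≤ H * L :=
        mul_le_mul (hbH _) (haL _) (Int.natCast_nonneg _) (Int.natCast_nonneg _)
      linarith
    exact (pow_le_pow_left₀ (abs_nonneg _) h2 _).trans (pow_le_pow_right₀ h1 (hm r))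
  refine (Finset.prod_le_prod (fun i _ => abs_nonneg _) key).trans ?_
  rw [Finset.prod_const, Finset.card_univ, Fintype.card_fin, ← pow_mul, mul_comm K d]

theorem ff_bound {d L H K M : ℕ} (hL : 1 ≤ L) (hH : 1 ≤ H) (hM : 3 ≤ M) (p : Fin (d + 1) → ℕ)
    (hp1 : ∀ i, 1 ≤ p i) (hpM : ∀ i, p i ≤ M) (b : Fin (d + 1) → ℤ) (hb : b (Fin.last d) ≠ 0)
    (hbH : ∀ i, |b i| ≤ H) (hLL : |LL p b| ≤ 1) (c : (Fin (d + 1) → Fin (L + 1)) → ℤ) (P : ℝ)
    (hc : ∀ a, |(c a : ℝ)| ≤ P) (m : Fin d → ℕ) (hm : ∀ r, m r ≤ K) (ρ : ℝ) (z : ℂ)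
    (hz : ‖z‖ ≤ ρ) :
    ‖ff p b c m z‖ ≤ (L + 1) ^ (d + 1) * P * (2 * H * L) ^ (d * K) *
      Real.exp (2 * (d + 1) * L * Real.log M * ρ) := by
  have hρ : 0 ≤ ρ := (norm_nonneg _).trans hz
  have hP : 0 ≤ P := (abs_nonneg _).trans (hc (fun _ => 0))
  unfold ff
  refine (norm_sum_le _ _).trans ?_
  have key : ∀ a ∈ (Finset.univ : Finset (Fin (d + 1) → Fin (L + 1))),
      ‖(c a : ℂ) * (qq b m a : ℂ) * Complex.exp ((AA p b a : ℝ) * z)‖ ≤
        P * (2 * H * L) ^ (d * K) * Real.exp (2 * (d + 1) * L * Real.log M * ρ) := by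
    intro a _
    rw [norm_mul, norm_mul, Complex.norm_intCast, Complex.norm_intCast, Complex.norm_exp]
    have h1 : |((qq b m a : ℤ) : ℝ)| ≤ (2 * H * L) ^ (d * K) := by
      have := qq_bound hL hH b hbH m hm a
      exact_mod_cast this
    have h2 : Real.exp (((AA p b a : ℝ) : ℂ) * z).re ≤
        Real.exp (2 * (d + 1) * L * Real.log M * ρ) := by
      apply Real.exp_le_exp.mpr
      rw [Complex.re_ofReal_mul]
      refine (le_abs_self _).trans ?_
      rw [abs_mul]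
      exact mul_le_mul (AA_bound hM p hp1 hpM b hb hLL a)
        ((Complex.abs_re_le_norm z).trans hz) (abs_nonneg _)
        ((abs_nonneg _).trans (AA_bound hM p hp1 hpM b hb hLL a))
    have h3 : |(c a : ℝ)| * |((qq b m a : ℤ) : ℝ)| ≤ P * (2 * H * L) ^ (d * K) :=
      mul_le_mul (hc a) h1 (abs_nonneg _) hP
    exact mul_le_mul h3 h2 (Real.exp_pos _).le (by positivity)
  refine (Finset.sum_le_sum key).trans (le_of_eq ?_)
  rw [Finset.sum_const, Finset.card_univ, Fintype.card_fun, Fintype.card_fin, Fintype.card_fin,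
    nsmul_eq_mul]
  push_cast
  ring

end Pool.Agent.BK
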