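import Pool.Agent.Lib.BAKER.Defs
import Pool.Agent.Lib.BAKER.BakE

/-!
# Module BF: comparison of `f_m(l)` with the integer `T(m, l)`
-/

namespace Pool.Agent.BK

open Finset

theorem bf_AA {d L : ℕ} (p : Fin (d + 1) → ℕ) (b : Fin (d + 1) → ℤ)
    (hb : b (Fin.last d) ≠ 0) (a : Fin (d + 1) → Fin (L + 1)) :
    AA p b a = (∑ r, ((a r : ℕ) : ℝ) * Real.log (p r)) -
      ((a (Fin.last d) : ℕ) : ℝ) * LL p b / (b (Fin.last d) : ℝ) := by
  have hb' : (b (Fin.last d) : ℝ) ≠ 0 := by exact_mod_cast hb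
  unfold AA LL
  rw [Fin.sum_univ_castSucc, Fin.sum_univ_castSucc]
  rw [eq_sub_iff_add_eq]
  rw [mul_add, add_div, Finset.mul_sum, Finset.sum_div, ← add_assoc, ← Finset.sum_add_distrib]
  congr 1
  · apply Finset.sum_congr rfl
    intro r _
    field_simp
    ring
  · field_simp

theorem bf_one {d L M : ℕ} (hM : 3 ≤ M) (p : Fin (d + 1) → ℕ)
    (hp1 : ∀ i, 1 ≤ p i) (hpM : ∀ i, p i ≤ M) (b : Fin (d + 1) → ℤ) (hb : b (Fin.last d) ≠ 0)
    (a : Fin (d + 1) → Fin (L + 1)) (l R : ℕ) (hl : l ≤ R) (hLL : L * R * |LL p b| ≤ 1) :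
    |Real.exp (AA p b a * l) - ∏ r, (p r : ℝ) ^ ((a r : ℕ) * l)| ≤
      (M : ℝ) ^ ((d + 1) * L * R) * (2 * L * R * |LL p b|) := by
  set x : ℝ := -(((a (Fin.last d) : ℕ) : ℝ) * LL p b / (b (Fin.last d) : ℝ) * l) with hx
  have hbabs : 1 ≤ |(b (Fin.last d) : ℝ)| := by
    have h1 : 1 ≤ |b (Fin.last d)| := Int.one_le_abs hb
    exact_mod_cast h1
  have haL : ∀ r, (a r : ℕ) ≤ L := fun r => Nat.lt_succ_iff.mp (a r).2
  have hxb : |x| ≤ L * R * |LL p b| := by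
    rw [hx, abs_neg, abs_mul, abs_div, abs_mul]
    rw [abs_of_nonneg (Nat.cast_nonneg _ : (0:ℝ) ≤ ((a (Fin.last d) : ℕ) : ℝ)),
      abs_of_nonneg (Nat.cast_nonneg _ : (0:ℝ) ≤ (l : ℝ))]
    have h1 : ((a (Fin.last d) : ℕ) : ℝ) * |LL p b| / |(b (Fin.last d) : ℝ)| ≤ L * |LL p b| := by
      refine (div_le_self (by positivity) hbabs).trans ?_
      have : ((a (Fin.last d) : ℕ) : ℝ) ≤ L := by exact_mod_cast haL _
      gcongr
    have h2 : (l : ℝ) ≤ R := by exact_mod_cast hl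
    calc ((a (Fin.last d) : ℕ) : ℝ) * |LL p b| / |(b (Fin.last d) : ℝ)| * l
        ≤ (L * |LL p b|) * R := by gcongr
      _ = L * R * |LL p b| := by ring
  have hx1 : |x| ≤ 1 := hxb.trans hLL
  have hexp : Real.exp (AA p b a * l) = (∏ r, (p r : ℝ) ^ ((a r : ℕ) * l)) * Real.exp x := by
    rw [bf_AA p b hb a, sub_mul, sub_eq_add_neg, Real.exp_add, Finset.sum_mul, Real.exp_sum]
    congr 1
    apply Finset.prod_congr rfl
    intro r _
    have hpr : (0 : ℝ) < p r := by exact_mod_cast hp1 r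
    rw [show ((a r : ℕ) : ℝ) * Real.log (p r) * l = (((a r : ℕ) * l : ℕ) : ℝ) * Real.log (p r) by
      push_cast; ring, Real.exp_nat_mul, Real.exp_log hpr]
  have hprod : (∏ r, (p r : ℝ) ^ ((a r : ℕ) * l)) ≤ (M : ℝ) ^ ((d + 1) * L * R) := by
    calc (∏ r, (p r : ℝ) ^ ((a r : ℕ) * l)) ≤ ∏ r : Fin (d + 1), (M : ℝ) ^ (L * R) := by
          apply Finset.prod_le_prod
          · intro r _; positivity
          · intro r _
            have h1 : (1 : ℝ) ≤ p r := by exact_mod_cast hp1 r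
            have h2 : (p r : ℝ) ≤ M := by exact_mod_cast hpM r
            have h3 : (a r : ℕ) * l ≤ L * R := Nat.mul_le_mul (haL r) hl
            calc (p r : ℝ) ^ ((a r : ℕ) * l) ≤ (p r : ℝ) ^ (L * R) := pow_le_pow_right₀ h1 h3
              _ ≤ (M : ℝ) ^ (L * R) := pow_le_pow_left₀ (by positivity) h2 _
      _ = (M : ℝ) ^ ((d + 1) * L * R) := by
          rw [Finset.prod_const, Finset.card_univ, Fintype.card_fin, ← pow_mul]
          congr 1; ring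
  rw [hexp]
  have h4 : (∏ r, (p r : ℝ) ^ ((a r : ℕ) * l)) * Real.exp x - ∏ r, (p r : ℝ) ^ ((a r : ℕ) * l) =
      (∏ r, (p r : ℝ) ^ ((a r : ℕ) * l)) * (Real.exp x - 1) := by ring
  rw [h4, abs_mul, abs_of_nonneg (by positivity : (0:ℝ) ≤ ∏ r, (p r : ℝ) ^ ((a r : ℕ) * l))]
  have h5 : |Real.exp x - 1| ≤ 2 * |x| := Real.abs_exp_sub_one_le hx1
  have h6 : |Real.exp x - 1| ≤ 2 * L * R * |LL p b| := by
    refine h5.trans ?_
    calc 2 * |x| ≤ 2 * (L * R * |LL p b|) := by gcongr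
      _ = 2 * L * R * |LL p b| := by ring
  exact mul_le_mul hprod h6 (abs_nonneg _) (by positivity)

theorem ff_TT {d L H K M : ℕ} (hL : 1 ≤ L) (hH : 1 ≤ H) (hM : 3 ≤ M) (p : Fin (d + 1) → ℕ)
    (hp1 : ∀ i, 1 ≤ p i) (hpM : ∀ i, p i ≤ M) (b : Fin (d + 1) → ℤ) (hb : b (Fin.last d) ≠ 0)
    (hbH : ∀ i, |b i| ≤ H) (c : (Fin (d + 1) → Fin (L + 1)) → ℤ) (P : ℝ)
    (hc : ∀ a, |(c a : ℝ)| ≤ P) (m : Fin d → ℕ) (hm : ∀ r, m r ≤ K) (l R : ℕ) (hl : l ≤ R)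
    (hLL : L * R * |LL p b| ≤ 1) :
    ‖ff p b c m l - (TT p b c m l : ℂ)‖ ≤ (L + 1) ^ (d + 1) * P * (2 * H * L) ^ (d * K) *
      (M : ℝ) ^ ((d + 1) * L * R) * (2 * L * R * |LL p b|) := by
  have hterm : ∀ a : Fin (d + 1) → Fin (L + 1),
      ‖(c a : ℂ) * (qq b m a : ℂ) * Complex.exp ((AA p b a : ℝ) * (l : ℂ)) -
        (c a : ℂ) * (qq b m a : ℂ) * ∏ r, (p r : ℂ) ^ ((a r : ℕ) * l)‖ ≤
      P * (2 * H * L) ^ (d * K) * ((M : ℝ) ^ ((d + 1) * L * R) * (2 * L * R * |LL p b|)) := by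
    intro a
    rw [← mul_sub, norm_mul, norm_mul]
    have h1 : ‖(c a : ℂ)‖ ≤ P := by
      rw [Complex.norm_intCast]; exact hc a
    have h2 : ‖(qq b m a : ℂ)‖ ≤ (2 * H * L : ℝ) ^ (d * K) := by
      rw [Complex.norm_intCast]
      have := qq_bound hL hH b hbH m hm a
      exact_mod_cast this
    have h3 : ‖Complex.exp ((AA p b a : ℝ) * (l : ℂ)) - ∏ r, (p r : ℂ) ^ ((a r : ℕ) * l)‖ ≤
        (M : ℝ) ^ ((d + 1) * L * R) * (2 * L * R * |LL p b|) := by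
      have h4 : Complex.exp ((AA p b a : ℝ) * (l : ℂ)) - ∏ r, (p r : ℂ) ^ ((a r : ℕ) * l) =
          ((Real.exp (AA p b a * l) - ∏ r, (p r : ℝ) ^ ((a r : ℕ) * l) : ℝ) : ℂ) := by
        push_cast
        rfl
      rw [h4, Complex.norm_real, Real.norm_eq_abs]
      exact bf_one hM p hp1 hpM b hb a l R hl hLL
    have hP : 0 ≤ P := (abs_nonneg _).trans (hc a)
    exact mul_le_mul (mul_le_mul h1 h2 (norm_nonneg _) hP) h3 (norm_nonneg _) (by positivity)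
  have hsum : ff p b c m l - (TT p b c m l : ℂ) = ∑ a : Fin (d + 1) → Fin (L + 1),
      ((c a : ℂ) * (qq b m a : ℂ) * Complex.exp ((AA p b a : ℝ) * (l : ℂ)) -
        (c a : ℂ) * (qq b m a : ℂ) * ∏ r, (p r : ℂ) ^ ((a r : ℕ) * l)) := by
    rw [Finset.sum_sub_distrib]
    unfold ff TT
    push_cast
    rfl
  rw [hsum]
  refine (norm_sum_le _ _).trans ?_
  refine (Finset.sum_le_sum fun a _ => hterm a).trans ?_
  rw [Finset.sum_const, Finset.card_univ, Fintype.card_fun, Fintype.card_fin, Fintype.card_fin,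
    nsmul_eq_mul]
  push_cast
  exact le_of_eq (by ring)

end Pool.Agent.BK
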