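import Pool.Agent.Lib.BAKER.Defs
import Pool.Agent.Lib.BAKER.BakE

/-!
# Siegel lemma for the auxiliary functions (module BG of project BAKER)
-/

namespace Pool.Agent.BK

open Finset

open Matrix in
attribute [local instance] Matrix.seminormedAddCommGroup in
theorem BakG_aux {ι κ : Type} [Fintype ι] [Fintype κ] [DecidableEq ι] [DecidableEq κ]
    [Nonempty ι] (hcard : 2 * Fintype.card ι ≤ Fintype.card κ) (A : Matrix ι κ ℤ) (B : ℝ)
    (hB : 1 ≤ B) (hA : ∀ i j, |(A i j : ℝ)| ≤ B) :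
    ∃ t : κ → ℤ, t ≠ 0 ∧ A *ᵥ t = 0 ∧ ∀ j, |(t j : ℝ)| ≤ Fintype.card κ * B := by
  have hpos : 0 < Fintype.card ι := Fintype.card_pos
  have hlt : Fintype.card ι < Fintype.card κ := by omega
  obtain ⟨t, ht, hAt, hnorm⟩ := Int.Matrix.exists_ne_zero_int_vec_norm_le A hlt hpos
  refine ⟨t, ht, hAt, fun j => ?_⟩
  have hN1 : (1 : ℝ) ≤ Fintype.card κ := by exact_mod_cast (show 1 ≤ Fintype.card κ by omega)
  have hAn : ‖A‖ ≤ B := by
    rw [Matrix.norm_le_iff (by positivity)]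
    intro i j
    rw [Int.norm_eq_abs]
    exact hA i j
  have hbase : (1 : ℝ) ≤ Fintype.card κ * max 1 ‖A‖ :=
    one_le_mul_of_one_le_of_one_le hN1 (le_max_left _ _)
  have hc2 : (2 : ℝ) * Fintype.card ι ≤ Fintype.card κ := by exact_mod_cast hcard
  have hcp : (0 : ℝ) < Fintype.card ι := by exact_mod_cast hpos
  have hexp : ((Fintype.card ι : ℕ) : ℝ) /
      (((Fintype.card κ : ℕ) : ℝ) - ((Fintype.card ι : ℕ) : ℝ)) ≤ 1 := by
    rw [div_le_one (by linarith)]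
    linarith
  have h1 : ‖t j‖ ≤ ‖t‖ := norm_le_pi_norm t j
  have h2 := hnorm.trans (Real.rpow_le_rpow_of_exponent_le hbase hexp)
  rw [Real.rpow_one] at h2
  rw [Int.norm_eq_abs] at h1
  refine h1.trans (h2.trans ?_)
  gcongr
  exact max_le hB hAn

theorem siegel {d L H K M R : ℕ} (hL : 1 ≤ L) (hH : 1 ≤ H) (hM : 3 ≤ M) (hR : 1 ≤ R)
    (p : Fin (d + 1) → ℕ) (hp1 : ∀ i, 1 ≤ p i) (hpM : ∀ i, p i ≤ M) (b : Fin (d + 1) → ℤ)
    (hbH : ∀ i, |b i| ≤ H) (hN : 2 * R * (K + 1) ^ d ≤ (L + 1) ^ (d + 1)) :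
    ∃ c : (Fin (d + 1) → Fin (L + 1)) → ℤ, c ≠ 0 ∧
      (∀ a, |(c a : ℝ)| ≤ (L + 1) ^ (d + 1) * (2 * H * L) ^ (d * K) *
        (M : ℝ) ^ ((d + 1) * L * R)) ∧
      ∀ m : Fin d → ℕ, (∀ r, m r ≤ K) → ∀ l < R, TT p b c m l = 0 := by
  have hH' : (1 : ℝ) ≤ H := by exact_mod_cast hH
  have hL' : (1 : ℝ) ≤ L := by exact_mod_cast hL
  have hM' : (1 : ℝ) ≤ M := by
    have : (3 : ℝ) ≤ M := by exact_mod_cast hM
    linarith
  have h2HL : (1 : ℝ) ≤ 2 * H * L := by nlinarith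
  have hB : (1 : ℝ) ≤ (2 * H * L) ^ (d * K) * (M : ℝ) ^ ((d + 1) * L * R) :=
    one_le_mul_of_one_le_of_one_le (one_le_pow₀ h2HL) (one_le_pow₀ hM')
  have : NeZero R := ⟨by omega⟩
  have hcard : 2 * Fintype.card ((Fin d → Fin (K + 1)) × Fin R) ≤
      Fintype.card (Fin (d + 1) → Fin (L + 1)) := by
    rw [Fintype.card_prod, Fintype.card_fun, Fintype.card_fun, Fintype.card_fin, Fintype.card_fin,
      Fintype.card_fin, Fintype.card_fin, Fintype.card_fin]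
    calc 2 * ((K + 1) ^ d * R) = 2 * R * (K + 1) ^ d := by ring
      _ ≤ _ := hN
  obtain ⟨t, ht, hAt, hb⟩ := BakG_aux hcard
    (Matrix.of fun (i : (Fin d → Fin (K + 1)) × Fin R) (a : Fin (d + 1) → Fin (L + 1)) =>
      qq b (fun r => (i.1 r : ℕ)) a * ∏ r, (p r : ℤ) ^ ((a r : ℕ) * (i.2 : ℕ))) _ hB (by
      rintro ⟨m, l⟩ a
      rw [Matrix.of_apply, Int.cast_mul, abs_mul]
      have h1 : |(qq b (fun r => (m r : ℕ)) a : ℝ)| ≤ (2 * H * L) ^ (d * K) := by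
        have := qq_bound hL hH b hbH (fun r => (m r : ℕ)) (K := K)
          (fun r => Nat.lt_succ_iff.1 (m r).2) a
        exact_mod_cast this
      have h2 : |((∏ r, (p r : ℤ) ^ ((a r : ℕ) * (l : ℕ)) : ℤ) : ℝ)| ≤
          (M : ℝ) ^ ((d + 1) * L * R) := by
        rw [Int.cast_prod, Finset.abs_prod]
        calc ∏ r, |(((p r : ℤ) ^ ((a r : ℕ) * (l : ℕ)) : ℤ) : ℝ)|
            ≤ ∏ _r : Fin (d + 1), (M : ℝ) ^ (L * R) := by
              refine Finset.prod_le_prod (fun _ _ => abs_nonneg _) fun r _ => ?_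
              push_cast
              rw [abs_of_nonneg (by positivity)]
              calc (p r : ℝ) ^ ((a r : ℕ) * (l : ℕ)) ≤ (M : ℝ) ^ ((a r : ℕ) * (l : ℕ)) :=
                    pow_le_pow_left₀ (by positivity) (by exact_mod_cast hpM r) _
                _ ≤ (M : ℝ) ^ (L * R) := pow_le_pow_right₀ hM'
                    (Nat.mul_le_mul (Nat.lt_succ_iff.1 (a r).2) l.2.le)
          _ = (M : ℝ) ^ ((d + 1) * L * R) := by
              rw [Finset.prod_const, Finset.card_univ, Fintype.card_fin, ← pow_mul]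
              congr 1
              ring
      exact mul_le_mul h1 h2 (abs_nonneg _) (by positivity))
  refine ⟨t, ht, fun a => (hb a).trans (le_of_eq ?_), fun m hm l hl => ?_⟩
  · rw [Fintype.card_fun, Fintype.card_fin, Fintype.card_fin]
    push_cast
    ring
  · have h := congrFun hAt (fun r => ⟨m r, Nat.lt_succ_iff.2 (hm r)⟩, ⟨l, hl⟩)
    rw [Matrix.mulVec, dotProduct, Pi.zero_apply] at h
    rw [TT, ← h]
    refine Finset.sum_congr rfl fun a _ => ?_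
    rw [Matrix.of_apply]
    ring

end Pool.Agent.BK
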