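import Pool.Agent.Lib.BAKER.Defs

namespace Pool.Agent.BK

open Finset

theorem bakH_fact {d L : ℕ} (p : Fin (d + 1) → ℕ) (hp : ∀ i, (p i).Prime)
    (hinj : Function.Injective p) (a : Fin (d + 1) → Fin (L + 1)) (r : Fin (d + 1)) :
    (∏ i, p i ^ (a i : ℕ)).factorization (p r) = a r := by
  rw [Nat.factorization_prod (fun i _ => pow_ne_zero _ (hp i).ne_zero)]
  rw [Finsupp.finsetSum_apply]
  rw [Finset.sum_eq_single r]
  · rw [(hp r).factorization_pow]
    simp
  · intro i _ hir
    rw [(hp i).factorization_pow]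
    rw [Finsupp.single_apply, if_neg]
    intro h
    exact hir (hinj h)
  · intro h
    exact absurd (Finset.mem_univ r) h

theorem bakH_inj {d L : ℕ} (p : Fin (d + 1) → ℕ) (hp : ∀ i, (p i).Prime)
    (hinj : Function.Injective p) :
    Function.Injective (fun a : Fin (d + 1) → Fin (L + 1) => ∏ i, (p i : ℤ) ^ (a i : ℕ)) := by
  intro a a' h
  have h' : (∏ i, p i ^ (a i : ℕ)) = ∏ i, p i ^ (a' i : ℕ) := by
    have : ((∏ i, p i ^ (a i : ℕ) : ℕ) : ℤ) = ((∏ i, p i ^ (a' i : ℕ) : ℕ) : ℤ) := by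
      push_cast
      exact h
    exact_mod_cast this
  funext r
  apply Fin.ext
  rw [← bakH_fact p hp hinj a r, ← bakH_fact p hp hinj a' r, h']

theorem vander {d L : ℕ} (p : Fin (d + 1) → ℕ) (hp : ∀ i, (p i).Prime)
    (hinj : Function.Injective p) (b : Fin (d + 1) → ℤ) (c : (Fin (d + 1) → Fin (L + 1)) → ℤ)
    (h : ∀ l < (L + 1) ^ (d + 1), TT p b c 0 l = 0) : c = 0 := by
  have hcard : Fintype.card (Fin (d + 1) → Fin (L + 1)) = (L + 1) ^ (d + 1) := by
    simp
  let e : (Fin (d + 1) → Fin (L + 1)) ≃ Fin ((L + 1) ^ (d + 1)) :=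
    Fintype.equivFinOfCardEq hcard
  have hv : (fun j => c (e.symm j)) = 0 := by
    apply Matrix.eq_zero_of_forall_pow_sum_mul_pow_eq_zero
      (f := fun j => ∏ i, (p i : ℤ) ^ ((e.symm j) i : ℕ))
    · exact (bakH_inj p hp hinj).comp e.symm.injective
    · intro l
      have := h l l.2
      unfold TT at this
      rw [← this]
      rw [← Equiv.sum_comp e.symm]
      apply Finset.sum_congr rfl
      intro a _
      have h1 : qq b 0 (e.symm a) = 1 := by
        unfold qq
        simp
      rw [h1, mul_one, ← Finset.prod_pow]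
      congr 1
      apply Finset.prod_congr rfl
      intro i _
      rw [pow_mul]
  funext a
  have := congrFun hv (e a)
  simpa using this

end Pool.Agent.BK
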