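import Pool.Agent.Lib.BAKER.Defs
import Pool.Agent.Lib.BAKER.BakC
import Pool.Agent.Lib.BAKER.BakD
import Pool.Agent.Lib.BAKER.BakE
import Pool.Agent.Lib.BAKER.BakF

/-!
# One extrapolation step
-/

namespace Pool.Agent.BK

open Finset

/-- the final numerical contradiction -/
theorem bakI_int {x : ℂ} {t : ℤ} (h1 : ‖x‖ ≤ 1 / 2) (h2 : ‖x - (t : ℂ)‖ ≤ 1 / 4) : t = 0 := by
  have h3 : ‖(t : ℂ)‖ ≤ 3 / 4 := by
    have : (t : ℂ) = x - (x - (t : ℂ)) := by ring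
    rw [this]
    refine (norm_sub_le _ _).trans ?_
    linarith
  rw [Complex.norm_intCast] at h3
  by_contra h
  have : (1 : ℤ) ≤ |t| := Int.one_le_abs h
  have h4 : (1 : ℝ) ≤ |(t : ℝ)| := by exact_mod_cast this
  linarith

theorem bakI_one_le_log {M : ℕ} (hM : 3 ≤ M) : (1 : ℝ) ≤ Real.log M := by
  have h1 : Real.exp 1 < 3 := by
    have := Real.exp_one_lt_d9
    linarith
  have h3 : (3 : ℝ) ≤ M := by exact_mod_cast hM
  have h2 : (1 : ℝ) = Real.log (Real.exp 1) := by rw [Real.log_exp]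
  rw [h2]
  exact Real.log_le_log (Real.exp_pos 1) (h1.le.trans h3)

theorem step {d L H K M : ℕ} (hd : 1 ≤ d) (hL : 1 ≤ L) (hH : 1 ≤ H) (hM : 3 ≤ M)
    (p : Fin (d + 1) → ℕ) (hp1 : ∀ i, 1 ≤ p i) (hpM : ∀ i, p i ≤ M) (b : Fin (d + 1) → ℤ)
    (hb : b (Fin.last d) ≠ 0) (hbH : ∀ i, |b i| ≤ H) (c : (Fin (d + 1) → Fin (L + 1)) → ℤ)
    (P : ℝ) (hc : ∀ a, |(c a : ℝ)| ≤ P) (R R' T K' : ℕ) (hR : 1 ≤ R) (hRR : R ≤ R')
    (hT : 1 ≤ T) (hTK : T ≤ K') (hKK : K' ≤ K)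
    (h0 : ∀ m : Fin d → ℕ, (∀ r, m r ≤ K') → ∀ l < R, TT p b c m l = 0)
    (h1 : 4 * ((L + 1) ^ (d + 1) * P * (2 * H * L) ^ (d * K)) *
      Real.exp (18 * (d + 1) * L * R' * Real.log M) ≤ 2 ^ (R * T))
    (h2 : 4 * (((L + 1) ^ (d + 1) * P * (2 * H * L) ^ (d * K) *
      (M : ℝ) ^ ((d + 1) * L * R') * (2 * L * R' * |LL p b|)) *
        ((d * Real.log M) ^ T * (4 * R') ^ (2 * (R * T) ^ 2))) ≤ 1)
    (h3 : L * R' * |LL p b| ≤ 1) :
    ∀ m : Fin d → ℕ, (∀ r, m r ≤ K' - T) → ∀ l < R', TT p b c m l = 0 := by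
  intro m hm l' hl'
  have hR' : 1 ≤ R' := hR.trans hRR
  have hR1 : (1 : ℝ) ≤ (R' : ℝ) := by exact_mod_cast hR'
  have hL1 : (1 : ℝ) ≤ (L : ℝ) := by exact_mod_cast hL
  have hd1 : (1 : ℝ) ≤ (d : ℝ) := by exact_mod_cast hd
  have hlog := bakI_one_le_log hM
  have hLL1 : |LL p b| ≤ 1 := by
    have h4 : (1 : ℝ) ≤ L * R' := by nlinarith
    have h5 := abs_nonneg (LL p b)
    nlinarith
  set E : ℝ := (L + 1) ^ (d + 1) * P * (2 * H * L) ^ (d * K) *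
      (M : ℝ) ^ ((d + 1) * L * R') * (2 * L * R' * |LL p b|) with hE
  have hP : 0 ≤ P := (abs_nonneg _).trans (hc (fun _ => 0))
  have hE0 : 0 ≤ E := by
    rw [hE]; positivity
  have hdl : (1 : ℝ) ≤ d * Real.log M := by nlinarith
  -- the values of the auxiliary functions
  have hff : ∀ k : Fin d → ℕ, (∀ r, k r < T) → ∀ l < R, ‖ff p b c (m + k) l‖ ≤ E := by
    intro k hk l hl
    have hmk : ∀ r, (m + k) r ≤ K' := by
      intro r
      have h4 := hm r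
      have h5 := hk r
      show m r + k r ≤ K'
      omega
    have h4 := ff_TT hL hH hM p hp1 hpM b hb hbH c P hc (m + k) (fun r => (hmk r).trans hKK) l R'
      (hl.le.trans hRR) h3
    rw [h0 (m + k) hmk l hl] at h4
    simpa using h4
  have hder : ∀ l < R, ∀ j < T, ‖iteratedDeriv j (ff p b c m) (l : ℂ)‖ ≤
      (d * Real.log M) ^ T * E := by
    intro l hl j hj
    have h4 := ff_deriv hM p hp1 hpM b hb c j E (l : ℂ) m
      (fun k hk => hff k (fun r => (hk r).trans_lt hj) l hl)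
    refine h4.trans ?_
    exact mul_le_mul_of_nonneg_right (pow_le_pow_right₀ hdl hj.le) hE0
  have hmK : ∀ r, m r ≤ K := by
    intro r
    have h4 := hm r
    omega
  have hbd : ∀ z : ℂ, ‖z‖ ≤ 9 * R' → ‖ff p b c m z‖ ≤
      (L + 1) ^ (d + 1) * P * (2 * H * L) ^ (d * K) *
        Real.exp (18 * (d + 1) * L * R' * Real.log M) := by
    intro z hz
    have h4 := ff_bound hL hH hM p hp1 hpM b hb hbH hLL1 c P hc m hmK (9 * R') z hz
    have h5 : 2 * ((d : ℝ) + 1) * L * Real.log M * (9 * R') =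
      18 * (d + 1) * L * R' * Real.log M := by ring
    rwa [h5] at h4
  have hasl := asl (ff p b c m) (ff_diff p b c m) R T R' hR hT hRR ((d * Real.log M) ^ T * E) _
    (by positivity) hder hbd (l' : ℂ) (by
      rw [Complex.norm_natCast]
      exact_mod_cast hl'.le)
  -- the two terms
  have ht1 : ((L : ℝ) + 1) ^ (d + 1) * P * (2 * H * L) ^ (d * K) *
        Real.exp (18 * (d + 1) * L * R' * Real.log M) / 2 ^ (R * T) ≤ 1 / 4 := by
    rw [div_le_iff₀ (by positivity)]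
    linarith
  have ht2 : (d * Real.log M) ^ T * E * (4 * (R' : ℝ)) ^ (2 * (R * T) ^ 2) ≤ 1 / 4 := by
    have h4 : (d * Real.log M) ^ T * E * (4 * (R' : ℝ)) ^ (2 * (R * T) ^ 2) =
      E * ((d * Real.log M) ^ T * (4 * R') ^ (2 * (R * T) ^ 2)) := by ring
    rw [h4]
    linarith
  have hEq : E ≤ 1 / 4 := by
    have h4 : (1 : ℝ) ≤ (d * Real.log M) ^ T * (4 * R') ^ (2 * (R * T) ^ 2) := by
      have h5 : (1 : ℝ) ≤ (d * Real.log M) ^ T := one_le_pow₀ hdl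
      have h6 : (1 : ℝ) ≤ (4 * (R' : ℝ)) ^ (2 * (R * T) ^ 2) := one_le_pow₀ (by linarith)
      nlinarith
    nlinarith
  have hfin : ‖ff p b c m l'‖ ≤ 1 / 2 := by linarith
  have h4 := ff_TT hL hH hM p hp1 hpM b hb hbH c P hc m hmK l' R' hl'.le h3
  exact bakI_int hfin (h4.trans hEq)

end Pool.Agent.BK
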