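import Pool.Agent.Lib.BAKER.BakG
import Pool.Agent.Lib.BAKER.BakH
import Pool.Agent.Lib.BAKER.BakI

/-!
# Baker's theorem, module BJ: all extrapolation steps, for given parameters
-/

namespace Pool.Agent.BK

open Finset

/-- `0 ≤ x ≤ exp a` -/
def BakJ_EB (x a : ℝ) : Prop := 0 ≤ x ∧ x ≤ Real.exp a

theorem BakJ_EB.mul {x a y b : ℝ} (hx : BakJ_EB x a) (hy : BakJ_EB y b) :
    BakJ_EB (x * y) (a + b) := by
  refine ⟨mul_nonneg hx.1 hy.1, ?_⟩
  rw [Real.exp_add]
  exact mul_le_mul hx.2 hy.2 hy.1 (Real.exp_nonneg a)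

theorem BakJ_EB.pow {x a : ℝ} (hx : BakJ_EB x a) (n : ℕ) : BakJ_EB (x ^ n) (n * a) := by
  refine ⟨pow_nonneg hx.1 n, ?_⟩
  rw [Real.exp_nat_mul]
  exact pow_le_pow_left₀ hx.1 hx.2 n

theorem BakJ_EB_self {x : ℝ} (hx : 0 ≤ x) : BakJ_EB x x :=
  ⟨hx, (by linarith : x ≤ x + 1).trans (Real.add_one_le_exp x)⟩

theorem BakJ_EB_log {x : ℝ} (hx : 0 < x) : BakJ_EB x (Real.log x) :=
  ⟨hx.le, (Real.exp_log hx).ge⟩

theorem BakJ_EB_four : BakJ_EB 4 2 := by
  refine ⟨by norm_num, ?_⟩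
  have h := Real.add_one_le_exp (1 : ℝ)
  have h2 : Real.exp 2 = Real.exp 1 * Real.exp 1 := by rw [← Real.exp_add]; norm_num
  rw [h2]
  nlinarith

theorem BakJ_EB_succ (L : ℕ) : BakJ_EB ((L : ℝ) + 1) L :=
  ⟨by positivity, Real.add_one_le_exp _⟩

theorem BakJ_log3 {M : ℕ} (hM : 3 ≤ M) : 1 ≤ Real.log M := by
  have hM3 : (3 : ℝ) ≤ M := by exact_mod_cast hM
  have h : Real.exp 1 ≤ (M : ℝ) := by
    have := Real.exp_one_lt_d9
    linarith
  have := Real.log_le_log (Real.exp_pos 1) h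
  rwa [Real.log_exp] at this

/-- all steps, for given parameters -/
theorem chain {d H M : ℕ} (hd : 1 ≤ d) (hH : 1 ≤ H) (hM : 3 ≤ M) (p : Fin (d + 1) → ℕ)
    (hp : ∀ i, (p i).Prime) (hinj : Function.Injective p) (hpM : ∀ i, p i ≤ M)
    (b : Fin (d + 1) → ℤ) (hb : b (Fin.last d) ≠ 0) (hbH : ∀ i, |b i| ≤ H)
    (hLL : |LL p b| ≤ Real.exp (-(H : ℝ) / 10))
    (L K R T J G : ℕ) (hL : 1 ≤ L) (hR : 1 ≤ R) (hT : 1 ≤ T) (hG : 1 ≤ G) (hJ : 1 ≤ J)
    (hK : K = J * T)
    (k1 : 2 * R * (K + 1) ^ d ≤ (L + 1) ^ (d + 1))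
    (k2 : (L + 1) ^ (d + 1) ≤ G ^ J * R)
    (k3 : 60 * (d + 1) * Real.log M * G * L ≤ T)
    (k4 : 24 * (d + 1) ^ 3 * Real.log (2 * H * L) ≤ R)
    (k5 : J = 2 * (d + 1) ^ 2)
    (k6 : 170 * ((G ^ J * R * K : ℕ) : ℝ) ^ 3 ≤ H) : False := by
  have hp1 : ∀ i, 1 ≤ p i := fun i => (hp i).one_lt.le
  obtain ⟨c, hc0, hc, hTT⟩ := siegel hL hH hM hR p hp1 hpM b hbH k1
  set P : ℝ := (L + 1) ^ (d + 1) * (2 * H * L) ^ (d * K) * (M : ℝ) ^ ((d + 1) * L * R) with hP
  -- real versions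
  have rd : (1 : ℝ) ≤ d := by exact_mod_cast hd
  have rH : (1 : ℝ) ≤ H := by exact_mod_cast hH
  have rL : (1 : ℝ) ≤ L := by exact_mod_cast hL
  have rR : (1 : ℝ) ≤ R := by exact_mod_cast hR
  have rT : (1 : ℝ) ≤ T := by exact_mod_cast hT
  have rG : (1 : ℝ) ≤ G := by exact_mod_cast hG
  have rJ : (1 : ℝ) ≤ J := by exact_mod_cast hJ
  have rM : (0 : ℝ) < M := by
    have : 0 < M := by omega
    exact_mod_cast this
  have rK : (K : ℝ) = J * T := by rw [hK]; push_cast; ring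
  have rJ2 : (J : ℝ) = 2 * (d + 1) ^ 2 := by rw [k5]; push_cast; ring
  have hℓ : 1 ≤ Real.log M := BakJ_log3 hM
  set ℓ : ℝ := Real.log M with hℓdef
  have hHL : (2 : ℝ) ≤ 2 * H * L := by
    have : (1 : ℝ) ≤ H * L := one_le_mul_of_one_le_of_one_le rH rL
    linarith
  have hlam : 0 ≤ Real.log (2 * H * L) := Real.log_nonneg (by linarith)
  set lam : ℝ := Real.log (2 * H * L) with hlamdef
  have TK : (T : ℝ) ≤ K := by rw [rK]; exact le_mul_of_one_le_left (by positivity) rJ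
  have hd1 : (0 : ℝ) < (d : ℝ) + 1 := by positivity
  -- basic smallness
  have s0 : ((d : ℝ) + 1) * L * G * ℓ ≤ T / 60 := by linarith
  have s1 : ((d : ℝ) + 1) * L * ℓ ≤ T / 60 := by
    have : ((d : ℝ) + 1) * L * ℓ ≤ ((d : ℝ) + 1) * L * ℓ * G :=
      le_mul_of_one_le_right (by positivity) rG
    linarith
  have s2 : ((d : ℝ) + 1) * L ≤ T / 60 := by
    have : ((d : ℝ) + 1) * L ≤ ((d : ℝ) + 1) * L * ℓ :=
      le_mul_of_one_le_right (by positivity) hℓ
    linarith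
  have s3 : (2 : ℝ) ≤ ((d : ℝ) + 1) * L := by
    have : ((d : ℝ) + 1) ≤ ((d : ℝ) + 1) * L := le_mul_of_one_le_right hd1.le rL
    linarith
  have s4 : 2 * ((d : ℝ) * K) * lam ≤ R * T / 6 := by
    rw [rK, rJ2]
    have e1 : 2 * ((d : ℝ) * (2 * (d + 1) ^ 2 * T)) * lam = (4 * d * (d + 1) ^ 2 * lam) * T := by
      ring
    rw [e1]
    have e2 : 4 * (d : ℝ) * (d + 1) ^ 2 * lam ≤ 4 * ((d : ℝ) + 1) ^ 3 * lam := by
      have : 4 * (d : ℝ) * (d + 1) ^ 2 ≤ 4 * ((d : ℝ) + 1) ^ 3 := by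
        have e5 : 4 * ((d : ℝ) + 1) ^ 3 = 4 * (d : ℝ) * (d + 1) ^ 2 + 4 * (d + 1) ^ 2 := by ring
        have e6 : (0 : ℝ) ≤ ((d : ℝ) + 1) ^ 2 := sq_nonneg _
        linarith
      exact mul_le_mul_of_nonneg_right this hlam
    have e3 : 4 * ((d : ℝ) + 1) ^ 3 * lam ≤ R / 6 := by linarith
    have e4 : 4 * (d : ℝ) * (d + 1) ^ 2 * lam ≤ R / 6 := e2.trans e3
    have e7 := mul_le_mul_of_nonneg_right e4 (by positivity : (0 : ℝ) ≤ T)
    linarith
  -- exponential bounds of the factors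
  have E1 : BakJ_EB (((L : ℝ) + 1) ^ (d + 1)) (((d + 1 : ℕ) : ℝ) * L) := (BakJ_EB_succ L).pow _
  have E2 : BakJ_EB ((2 * (H : ℝ) * L) ^ (d * K)) (((d * K : ℕ) : ℝ) * lam) :=
    (BakJ_EB_log (by linarith)).pow _
  have E3 : ∀ n : ℕ, BakJ_EB ((M : ℝ) ^ n) (n * ℓ) := fun n => (BakJ_EB_log rM).pow n
  have EP : BakJ_EB P ((((d + 1 : ℕ) : ℝ) * L) + (((d * K : ℕ) : ℝ) * lam) +
      ((((d + 1) * L * R : ℕ) : ℝ) * ℓ)) := (E1.mul E2).mul (E3 _)
  -- the quantity Y
  have hYeq : ((G ^ J * R * K : ℕ) : ℝ) = (G : ℝ) ^ J * R * K := by push_cast; ring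
  rw [hYeq] at k6
  set Y : ℝ := (G : ℝ) ^ J * R * K with hYdef
  have rGJ : (1 : ℝ) ≤ (G : ℝ) ^ J := one_le_pow₀ rG
  have rK1 : (1 : ℝ) ≤ K := rT.trans TK
  have hGR : (1 : ℝ) ≤ (G : ℝ) ^ J * R := one_le_mul_of_one_le_of_one_le rGJ rR
  have hY1 : 1 ≤ Y := one_le_mul_of_one_le_of_one_le hGR rK1
  have hYK : (K : ℝ) ≤ Y := le_mul_of_one_le_left (by positivity) hGR
  have hYR : (G : ℝ) ^ J * R ≤ Y := le_mul_of_one_le_right (by positivity) rK1
  have hYRK : (R : ℝ) * K ≤ Y := by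
    rw [hYdef, mul_assoc]
    exact le_mul_of_one_le_left (by positivity) rGJ
  have hY3 : Y ≤ Y ^ 3 := le_self_pow₀ hY1 (by norm_num)
  have hY23 : Y ^ 2 ≤ Y ^ 3 := pow_le_pow_right₀ hY1 (by norm_num)
  have hH17 : 17 * Y ^ 3 ≤ H / 10 := by linarith
  -- the steps
  have key : ∀ j : ℕ, j ≤ J → ∀ m : Fin d → ℕ, (∀ r, m r ≤ (J - j) * T) →
      ∀ l < G ^ j * R, TT p b c m l = 0 := by
    intro j
    induction j with
    | zero =>
      intro _ m hm l hl
      refine hTT m (fun r => ?_) l (by simpa using hl)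
      have := hm r
      rw [Nat.sub_zero, ← hK] at this
      exact this
    | succ j ih =>
      intro hjJ m hm l hl
      have hj : j < J := by omega
      have hih := ih hj.le
      -- data
      have rGj : (1 : ℝ) ≤ (G : ℝ) ^ j := one_le_pow₀ rG
      have hRj1 : 1 ≤ G ^ j * R := Nat.mul_pos (Nat.pow_pos hG) hR
      have hRRj : G ^ j * R ≤ G ^ (j + 1) * R :=
        Nat.mul_le_mul_right _ (Nat.pow_le_pow_right hG (Nat.le_succ j))
      have hTK' : T ≤ (J - j) * T := Nat.le_mul_of_pos_left _ (by omega)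
      have hKK' : (J - j) * T ≤ K := by
        rw [hK]
        exact Nat.mul_le_mul_right _ (Nat.sub_le _ _)
      have rRj : ((G ^ j * R : ℕ) : ℝ) = (G : ℝ) ^ j * R := by push_cast; ring
      have rRj' : ((G ^ (j + 1) * R : ℕ) : ℝ) = (G : ℝ) * ((G : ℝ) ^ j * R) := by
        push_cast; ring
      set Rj : ℝ := (G : ℝ) ^ j * R with hRj
      have hRjR : (R : ℝ) ≤ Rj := by
        rw [hRj]
        exact le_mul_of_one_le_left (by positivity) rGj
      have hRj1r : (1 : ℝ) ≤ Rj := rR.trans hRjR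
      have hGRj : (G : ℝ) * Rj ≤ (G : ℝ) ^ J * R := by
        have : (G : ℝ) ^ (j + 1) ≤ (G : ℝ) ^ J := pow_le_pow_right₀ rG (by omega)
        calc (G : ℝ) * Rj = (G : ℝ) ^ (j + 1) * R := by rw [hRj]; ring
          _ ≤ (G : ℝ) ^ J * R := mul_le_mul_of_nonneg_right this (by positivity)
      have hRjJ : Rj ≤ (G : ℝ) * Rj := le_mul_of_one_le_left (by positivity) rG
      have hRjTY : Rj * T ≤ Y := by
        rw [hYdef]
        exact mul_le_mul (hRjJ.trans hGRj) TK (by positivity) (by positivity)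
      have hGRjY : (G : ℝ) * Rj ≤ Y := hGRj.trans hYR
      have hLGRj : (L : ℝ) * ((G : ℝ) * Rj) ≤ Y := by
        have hLK : (L : ℝ) ≤ K := by
          have : (L : ℝ) ≤ ((d : ℝ) + 1) * L := le_mul_of_one_le_left (by positivity) (by linarith)
          linarith
        rw [hYdef, mul_comm]
        exact mul_le_mul hGRj hLK (by positivity) (by positivity)
      have hstep := step hd hL hH hM p hp1 hpM b hb hbH c P hc (G ^ j * R) (G ^ (j + 1) * R) T
        ((J - j) * T) hRj1 hRRj hT hTK' hKK' hih ?_ ?_ ?_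
      · refine hstep m (fun r => ?_) l hl
        have h1 := hm r
        have h2 : (J - (j + 1)) * T = (J - j) * T - T := by
          rw [show J - (j + 1) = J - j - 1 by omega, Nat.sub_mul, one_mul]
        rwa [h2] at h1
      · -- h1
        rw [rRj']
        have F : BakJ_EB (4 * (((L : ℝ) + 1) ^ (d + 1) * P * (2 * H * L) ^ (d * K)) *
            Real.exp (18 * (d + 1) * L * ((G : ℝ) * Rj) * ℓ)) _ :=
          ((BakJ_EB_four.mul ((E1.mul EP).mul E2))).mul
            (⟨Real.exp_nonneg _, le_rfl⟩ : BakJ_EB _ (18 * (d + 1) * L * ((G : ℝ) * Rj) * ℓ))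
        refine F.2.trans ?_
        have hlog2 : (0.69 : ℝ) ≤ Real.log 2 := by
          have := Real.log_two_gt_d9
          linarith
        have hpow : (2 : ℝ) ^ (G ^ j * R * T) = Real.exp (((G ^ j * R * T : ℕ) : ℝ) * Real.log 2) := by
          rw [Real.exp_nat_mul, Real.exp_log (by norm_num)]
        rw [hpow]
        apply Real.exp_le_exp.mpr
        have cast1 : ((G ^ j * R * T : ℕ) : ℝ) = Rj * T := by rw [hRj]; push_cast; ring
        rw [cast1]
        push_cast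
        have t1 : 2 + 2 * (((d : ℝ) + 1) * L) ≤ T / 15 := by linarith
        have t2 : (T : ℝ) / 15 ≤ Rj * T / 15 := by
          have : (T : ℝ) ≤ Rj * T := le_mul_of_one_le_left (by positivity) hRj1r
          linarith
        have t3 : ((d : ℝ) + 1) * L * R * ℓ ≤ Rj * T / 60 := by
          have h1 : ((d : ℝ) + 1) * L * R * ℓ = (((d : ℝ) + 1) * L * ℓ) * R := by ring
          rw [h1]
          have h2 : (((d : ℝ) + 1) * L * ℓ) * R ≤ (T / 60) * R :=
            mul_le_mul_of_nonneg_right s1 (by positivity)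
          have h3 : ((T : ℝ) / 60) * R ≤ (T / 60) * Rj :=
            mul_le_mul_of_nonneg_left hRjR (by positivity)
          linarith
        have t4 : 18 * ((d : ℝ) + 1) * L * ((G : ℝ) * Rj) * ℓ ≤ 0.3 * (Rj * T) := by
          have h1 : 18 * ((d : ℝ) + 1) * L * ((G : ℝ) * Rj) * ℓ =
              18 * ((((d : ℝ) + 1) * L * G * ℓ) * Rj) := by ring
          rw [h1]
          have h2 : (((d : ℝ) + 1) * L * G * ℓ) * Rj ≤ (T / 60) * Rj :=
            mul_le_mul_of_nonneg_right s0 (by positivity)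
          linarith
        have t5 : 2 * ((d : ℝ) * K) * lam ≤ Rj * T / 6 := by
          have : (R : ℝ) * T ≤ Rj * T := mul_le_mul_of_nonneg_right hRjR (by positivity)
          linarith
        have t6 : 0.69 * (Rj * T) ≤ Rj * T * Real.log 2 := by
          rw [mul_comm]
          exact mul_le_mul_of_nonneg_left hlog2 (by positivity)
        have t7 : (0 : ℝ) ≤ Rj * T := by positivity
        linarith
      · -- h2
        rw [rRj']
        have E4 : BakJ_EB (2 * L * ((G : ℝ) * Rj) * |LL p b|) (2 * L * ((G : ℝ) * Rj) + (-(H : ℝ) / 10)) :=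
          (BakJ_EB_self (by positivity)).mul ⟨abs_nonneg _, hLL⟩
        have E5 : BakJ_EB (((d : ℝ) * ℓ) ^ T) ((T : ℝ) * ((d : ℝ) * ℓ)) :=
          (BakJ_EB_self (by positivity)).pow _
        have E6 : BakJ_EB ((4 * ((G : ℝ) * Rj)) ^ (2 * (G ^ j * R * T) ^ 2))
            (((2 * (G ^ j * R * T) ^ 2 : ℕ) : ℝ) * (4 * ((G : ℝ) * Rj))) :=
          (BakJ_EB_self (by positivity)).pow _
        have F : BakJ_EB (4 * (((((L : ℝ) + 1) ^ (d + 1) * P * (2 * H * L) ^ (d * K) *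
            (M : ℝ) ^ ((d + 1) * L * (G ^ (j + 1) * R)) * (2 * L * ((G : ℝ) * Rj) * |LL p b|)) *
            (((d : ℝ) * ℓ) ^ T * (4 * ((G : ℝ) * Rj)) ^ (2 * (G ^ j * R * T) ^ 2))))) _ :=
          BakJ_EB_four.mul (((((E1.mul EP).mul E2).mul (E3 _)).mul E4).mul (E5.mul E6))
        refine F.2.trans ?_
        rw [← Real.exp_zero]
        apply Real.exp_le_exp.mpr
        have cast1 : ((2 * (G ^ j * R * T) ^ 2 : ℕ) : ℝ) = 2 * (Rj * T) ^ 2 := by
          rw [hRj]; push_cast; ring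
        have cast2 : (((d + 1) * L * (G ^ (j + 1) * R) : ℕ) : ℝ) =
            ((d : ℝ) + 1) * L * ((G : ℝ) * Rj) := by
          rw [hRj]; push_cast; ring
        rw [cast1, cast2]
        push_cast
        have t1 : 2 * (((d : ℝ) + 1) * L) ≤ Y := by linarith
        have t2 : 2 * ((d : ℝ) * K) * lam ≤ Y := by
          have : (R : ℝ) * T ≤ R * K := mul_le_mul_of_nonneg_left TK (by positivity)
          have h0 : (0 : ℝ) ≤ R * T := by positivity
          linarith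
        have t3 : ((d : ℝ) + 1) * L * R * ℓ ≤ Y := by
          have h1 : ((d : ℝ) + 1) * L * R * ℓ = (((d : ℝ) + 1) * L * ℓ) * R := by ring
          rw [h1]
          have h2 : (((d : ℝ) + 1) * L * ℓ) * R ≤ (T / 60) * R :=
            mul_le_mul_of_nonneg_right s1 (by positivity)
          have h3 : (R : ℝ) * T ≤ R * K := mul_le_mul_of_nonneg_left TK (by positivity)
          have h0 : (0 : ℝ) ≤ R * T := by positivity
          linarith
        have t4 : ((d : ℝ) + 1) * L * ((G : ℝ) * Rj) * ℓ ≤ Y := by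
          have h1 : ((d : ℝ) + 1) * L * ((G : ℝ) * Rj) * ℓ =
              (((d : ℝ) + 1) * L * G * ℓ) * Rj := by ring
          rw [h1]
          have h2 : (((d : ℝ) + 1) * L * G * ℓ) * Rj ≤ (T / 60) * Rj :=
            mul_le_mul_of_nonneg_right s0 (by positivity)
          have h0 : (0 : ℝ) ≤ Rj * T := by positivity
          linarith
        have t5 : (T : ℝ) * ((d : ℝ) * ℓ) ≤ Y ^ 2 := by
          have h1 : (d : ℝ) * ℓ ≤ T := by
            have a1 : (d : ℝ) * ℓ ≤ ((d : ℝ) + 1) * ℓ := by linarith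
            have a2 : ((d : ℝ) + 1) * ℓ ≤ ((d : ℝ) + 1) * L * ℓ := by
              have : ((d : ℝ) + 1) ≤ ((d : ℝ) + 1) * L := le_mul_of_one_le_right hd1.le rL
              exact mul_le_mul_of_nonneg_right this (by linarith)
            linarith
          have h2 : (T : ℝ) ≤ Y := TK.trans hYK
          calc (T : ℝ) * ((d : ℝ) * ℓ) ≤ Y * Y :=
                mul_le_mul h2 (h1.trans h2) (by positivity) (by positivity)
            _ = Y ^ 2 := by ring
        have t6 : 2 * (Rj * T) ^ 2 * (4 * ((G : ℝ) * Rj)) ≤ 8 * Y ^ 3 := by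
          have h1 : (Rj * T) ^ 2 ≤ Y ^ 2 := pow_le_pow_left₀ (by positivity) hRjTY 2
          have h2 : (Rj * T) ^ 2 * ((G : ℝ) * Rj) ≤ Y ^ 2 * Y :=
            mul_le_mul h1 hGRjY (by positivity) (by positivity)
          calc 2 * (Rj * T) ^ 2 * (4 * ((G : ℝ) * Rj)) = 8 * ((Rj * T) ^ 2 * ((G : ℝ) * Rj)) := by ring
            _ ≤ 8 * (Y ^ 2 * Y) := by linarith
            _ = 8 * Y ^ 3 := by ring
        have t7 : 2 * (L : ℝ) * ((G : ℝ) * Rj) ≤ 2 * Y := by linarith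
        linarith
      · -- h3
        rw [rRj']
        have E4 : BakJ_EB ((L : ℝ) * ((G : ℝ) * Rj) * |LL p b|)
            (L * ((G : ℝ) * Rj) + (-(H : ℝ) / 10)) :=
          (BakJ_EB_self (by positivity)).mul ⟨abs_nonneg _, hLL⟩
        refine E4.2.trans ?_
        rw [← Real.exp_zero]
        apply Real.exp_le_exp.mpr
        linarith
  apply hc0
  apply vander p hp hinj b c
  intro l hl
  refine key J le_rfl 0 (fun r => by simp) l (lt_of_lt_of_le hl k2)

end Pool.Agent.BK
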