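import Pool.Agent.Lib.BAKER.Defs
import Pool.Agent.Lib.BAKER.BakJ

namespace Pool.Agent.BK

open Finset

theorem BK_root (H N : ℕ) (hN : 1 ≤ N) : ∃ R : ℕ, R ^ N ≤ H ∧ H < (R + 1) ^ N := by
  have hex : ∃ R : ℕ, H < (R + 1) ^ N :=
    ⟨H, lt_of_lt_of_le (Nat.lt_succ_self H) (Nat.le_self_pow (by omega) _)⟩
  classical
  refine ⟨Nat.find hex, ?_, Nat.find_spec hex⟩
  rcases h : Nat.find hex with _ | r
  · rw [zero_pow (by omega)]
    exact Nat.zero_le _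
  · have := Nat.find_min hex (m := r) (by omega)
    exact not_lt.1 this

theorem BK_log {x : ℝ} (hx : 1000 ≤ x) : Real.log (x ^ 2 + 1) ≤ x := by
  rw [Real.log_le_iff_le_exp (by positivity)]
  have h1 : 1 + x / 2 + (x / 2) ^ 2 / 2 ≤ Real.exp (x / 2) :=
    Real.quadratic_le_exp_of_nonneg (by linarith)
  have h2 : Real.exp x = Real.exp (x / 2) * Real.exp (x / 2) := by
    rw [← Real.exp_add]
    congr 1
    ring
  rw [h2]
  have h3 : (1 + x / 2 + (x / 2) ^ 2 / 2) * (1 + x / 2 + (x / 2) ^ 2 / 2) ≤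
      Real.exp (x / 2) * Real.exp (x / 2) := by
    apply mul_le_mul h1 h1 (by positivity) (by positivity)
  have h4 : x ^ 2 + 1 ≤ (1 + x / 2 + (x / 2) ^ 2 / 2) * (1 + x / 2 + (x / 2) ^ 2 / 2) := by
    have h5 : x ≤ 1 + x / 2 + (x / 2) ^ 2 / 2 - 1 := by nlinarith
    nlinarith
  linarith

/-- the parameters -/
theorem BK_num {d H M : ℕ} (hd : 1 ≤ d) (hM : 3 ≤ M)
    (hcon : (10 ^ 7 * ((d : ℝ) + 1) ^ 10 * Real.log M) ^ (24 * (d + 1) ^ 2) ≤ (H : ℝ)) :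
    1 ≤ H ∧ ∃ L K R T J G : ℕ, 1 ≤ L ∧ 1 ≤ R ∧ 1 ≤ T ∧ 1 ≤ G ∧ 1 ≤ J ∧ K = J * T ∧
      2 * R * (K + 1) ^ d ≤ (L + 1) ^ (d + 1) ∧ (L + 1) ^ (d + 1) ≤ G ^ J * R ∧
      60 * ((d : ℝ) + 1) * Real.log M * G * L ≤ T ∧
      24 * ((d : ℝ) + 1) ^ 3 * Real.log (2 * H * L) ≤ R ∧ J = 2 * (d + 1) ^ 2 ∧
      170 * ((G ^ J * R * K : ℕ) : ℝ) ^ 3 ≤ H := by
  have hsr : ((d : ℝ) + 1) = ((d + 1 : ℕ) : ℝ) := by push_cast; ring
  rw [hsr] at hcon ⊢
  obtain ⟨s, hs⟩ : ∃ s : ℕ, s = d + 1 := ⟨_, rfl⟩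
  rw [← hs] at hcon ⊢
  have hs2 : 2 ≤ s := by omega
  have hs2r : (2 : ℝ) ≤ s := by exact_mod_cast hs2
  have hl1 : 1 ≤ Real.log M := by
    rw [Real.le_log_iff_exp_le (by positivity)]
    have h1 : Real.exp 1 < 3 := Real.exp_one_lt_three
    have h2 : (3 : ℝ) ≤ M := by exact_mod_cast hM
    linarith
  obtain ⟨l, hl⟩ : ∃ l : ℝ, l = Real.log M := ⟨_, rfl⟩
  rw [← hl] at hcon hl1 ⊢
  obtain ⟨N, hNs⟩ : ∃ N : ℕ, N = 24 * s ^ 2 := ⟨_, rfl⟩
  rw [← hNs] at hcon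
  have hN : 1 ≤ N := by nlinarith
  obtain ⟨R, hR1, hR2⟩ := BK_root H N hN
  have hR2r : (H : ℝ) < ((R : ℝ) + 1) ^ N := by
    have h1 := (Nat.cast_lt (α := ℝ)).2 hR2
    rw [Nat.cast_pow, Nat.cast_add, Nat.cast_one] at h1
    exact h1
  -- the size of `R`
  have hs10 : (1 : ℝ) ≤ (s : ℝ) ^ 10 := one_le_pow₀ (by linarith)
  have hXR : 10 ^ 7 * (s : ℝ) ^ 10 * l < (R : ℝ) + 1 := by
    have h1 : (10 ^ 7 * (s : ℝ) ^ 10 * l) ^ N < ((R : ℝ) + 1) ^ N := lt_of_le_of_lt hcon hR2r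
    exact lt_of_pow_lt_pow_left₀ _ (by positivity) h1
  have hsl : (1 : ℝ) ≤ (s : ℝ) ^ 10 * l := by nlinarith
  have hR6 : 10 ^ 6 * ((s : ℝ) ^ 10 * l) ≤ (R : ℝ) := by nlinarith
  have hRr : (10 : ℝ) ^ 6 ≤ R := by nlinarith
  have hRpos : 1 ≤ R := by
    have : (1 : ℝ) ≤ R := by linarith
    exact_mod_cast this
  -- `u0`
  obtain ⟨u, hu⟩ : ∃ u : ℕ, u = ⌈60 * s * l⌉₊ := ⟨_, rfl⟩
  have hu1 : 60 * (s : ℝ) * l ≤ u := by
    rw [hu]
    exact Nat.le_ceil _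
  have hu2 : (u : ℝ) ≤ 61 * s * l := by
    have h1 : (u : ℝ) < 60 * s * l + 1 := by
      rw [hu]
      exact Nat.ceil_lt_add_one (by positivity)
    nlinarith
  have hupos : 1 ≤ u := by
    have : (1 : ℝ) ≤ u := by nlinarith
    exact_mod_cast this
  obtain ⟨J, hJ⟩ : ∃ J : ℕ, J = 2 * s ^ 2 := ⟨_, rfl⟩
  have hJpos : 1 ≤ J := by nlinarith
  obtain ⟨G, hG⟩ : ∃ G : ℕ, G = 8 * R * J * u := ⟨_, rfl⟩
  have hGpos : 1 ≤ G := by
    rw [hG]
    exact Nat.succ_le_of_lt (by positivity)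
  obtain ⟨L, hL⟩ : ∃ L : ℕ, L = 2 * R * (2 * J * u * G) ^ d := ⟨_, rfl⟩
  have hLpos : 1 ≤ L := by
    rw [hL]
    exact Nat.succ_le_of_lt (by positivity)
  obtain ⟨T, hT⟩ : ∃ T : ℕ, T = u * G * L := ⟨_, rfl⟩
  have hTpos : 1 ≤ T := by
    rw [hT]
    exact Nat.succ_le_of_lt (by positivity)
  have hGR : G ≤ R ^ 2 := by
    have h1 : (G : ℝ) ≤ (R : ℝ) ^ 2 := by
      rw [hG, hJ]
      push_cast
      have h2 : 16 * (s : ℝ) ^ 2 * u ≤ R := by
        have h3 : 16 * (s : ℝ) ^ 2 * u ≤ 16 * (s : ℝ) ^ 2 * (61 * s * l) :=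
          mul_le_mul_of_nonneg_left hu2 (by positivity)
        have h4 : (s : ℝ) ^ 3 ≤ (s : ℝ) ^ 10 := pow_le_pow_right₀ (by linarith) (by norm_num)
        have h5 : (s : ℝ) ^ 3 * l ≤ (s : ℝ) ^ 10 * l :=
          mul_le_mul_of_nonneg_right h4 (by linarith)
        nlinarith
      nlinarith
    exact_mod_cast h1
  have h4R : 4 * R ≤ G := by
    rw [hG]
    have h1 : 1 ≤ J * u := Nat.mul_le_mul hJpos hupos
    have h2 : R * 1 ≤ R * (J * u) := Nat.mul_le_mul_left _ h1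
    nlinarith
  have hJu : 2 * J * u ≤ G := by
    rw [hG]
    have h2 : 1 * (J * u) ≤ R * (J * u) := Nat.mul_le_mul_right _ hRpos
    nlinarith
  -- the size of `L`
  have h2L : 2 * L ≤ G ^ (2 * d + 1) := by
    have h1 : 2 * L = 4 * R * ((2 * J * u) ^ d * G ^ d) := by
      rw [hL, mul_pow (2 * J * u) G d]
      ring
    rw [h1]
    calc 4 * R * ((2 * J * u) ^ d * G ^ d) ≤ G * (G ^ d * G ^ d) :=
          Nat.mul_le_mul h4R (Nat.mul_le_mul_right _ (Nat.pow_le_pow_left hJu d))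
      _ = G ^ (2 * d + 1) := by ring
  have hL1 : L + 1 ≤ 2 * L := by omega
  have hGr : (1 : ℝ) ≤ G := by exact_mod_cast hGpos
  have hLr : (1 : ℝ) ≤ L := by exact_mod_cast hLpos
  have hH1 : 1 ≤ H := (Nat.one_le_pow _ _ hRpos).trans hR1
  have hHr : (1 : ℝ) ≤ H := by exact_mod_cast hH1
  refine ⟨hH1, L, J * T, R, T, J, G, hLpos, hRpos, hTpos, hGpos, hJpos, rfl, ?_, ?_, ?_, ?_, hJ, ?_⟩
  · -- k1
    have hK : J * T + 1 ≤ 2 * J * u * G * L := by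
      have h1 : 1 ≤ J * T := Nat.mul_le_mul hJpos hTpos
      have h2 : 2 * J * u * G * L = 2 * (J * T) := by
        rw [hT]
        ring
      omega
    calc 2 * R * (J * T + 1) ^ d ≤ 2 * R * (2 * J * u * G * L) ^ d :=
          Nat.mul_le_mul_left _ (Nat.pow_le_pow_left hK d)
      _ = L * L ^ d := by
        rw [mul_pow (2 * J * u * G) L d, ← mul_assoc, ← hL]
      _ = L ^ s := by rw [hs]; ring
      _ ≤ (L + 1) ^ s := Nat.pow_le_pow_left (by omega) _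
  · -- k2
    calc (L + 1) ^ s ≤ (G ^ (2 * d + 1)) ^ s :=
          Nat.pow_le_pow_left (hL1.trans h2L) _
      _ = G ^ ((2 * d + 1) * s) := by rw [← pow_mul]
      _ ≤ G ^ J := by
        apply Nat.pow_le_pow_right hGpos
        rw [hJ, hs]
        nlinarith
      _ ≤ G ^ J * R := Nat.le_mul_of_pos_right _ hRpos
  · -- k3
    rw [hT]
    push_cast
    have h1 : (0 : ℝ) ≤ (G : ℝ) * L := by positivity
    calc 60 * (s : ℝ) * l * G * L = 60 * s * l * ((G : ℝ) * L) := by ring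
      _ ≤ u * ((G : ℝ) * L) := mul_le_mul_of_nonneg_right hu1 h1
      _ = (u : ℝ) * G * L := by ring
  · -- k4
    obtain ⟨y, hy⟩ : ∃ x : ℝ, x = Real.log ((R : ℝ) + 1) := ⟨_, rfl⟩
    have hy0 : 0 ≤ y := by
      rw [hy]
      exact Real.log_nonneg (by linarith)
    have h1 : Real.log (H : ℝ) ≤ N * y := by
      rw [hy, ← Real.log_pow]
      exact Real.log_le_log (by linarith) hR2r.le
    have h2 : Real.log (G : ℝ) ≤ 2 * y := by
      have h3 : (G : ℝ) ≤ ((R : ℝ) + 1) ^ 2 := by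
        have : (G : ℝ) ≤ (R : ℝ) ^ 2 := by exact_mod_cast hGR
        nlinarith
      have h4 := Real.log_le_log (by linarith) h3
      rw [Real.log_pow] at h4
      rw [hy]
      exact_mod_cast h4
    have h3 : Real.log (2 * (L : ℝ)) ≤ (2 * d + 1) * (2 * y) := by
      have h4 : 2 * (L : ℝ) ≤ (G : ℝ) ^ (2 * d + 1) := by exact_mod_cast h2L
      have h5 := Real.log_le_log (by linarith) h4
      rw [Real.log_pow] at h5
      push_cast at h5
      refine h5.trans (mul_le_mul_of_nonneg_left h2 (by positivity))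
    have h4 : Real.log (2 * (H : ℝ) * L) = Real.log H + Real.log (2 * L) := by
      rw [← Real.log_mul (by linarith) (by linarith)]
      congr 1
      ring
    have hds : (d : ℝ) = (s : ℝ) - 1 := by
      rw [hs]
      push_cast
      ring
    have h5 : Real.log (2 * (H : ℝ) * L) ≤ 26 * (s : ℝ) ^ 2 * y := by
      rw [h4]
      have h6 : (N : ℝ) = 24 * (s : ℝ) ^ 2 := by
        rw [hNs]
        push_cast
        ring
      rw [h6] at h1
      rw [hds] at h3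
      have h7 : (24 * (s : ℝ) ^ 2 + (2 * ((s : ℝ) - 1) + 1) * 2) * y ≤ 26 * (s : ℝ) ^ 2 * y := by
        apply mul_le_mul_of_nonneg_right _ hy0
        nlinarith
      nlinarith
    have hsq : Real.sqrt R * Real.sqrt R = R := Real.mul_self_sqrt (by linarith)
    have hsq1 : 1000 ≤ Real.sqrt R := by
      apply Real.le_sqrt_of_sq_le
      norm_num at hRr ⊢
      linarith
    have h6 : y ≤ Real.sqrt R := by
      rw [hy]
      have := BK_log hsq1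
      rwa [Real.sq_sqrt (by linarith)] at this
    have h7 : 624 * (s : ℝ) ^ 5 ≤ Real.sqrt R := by
      apply Real.le_sqrt_of_sq_le
      have h8 : (624 * (s : ℝ) ^ 5) ^ 2 = 389376 * (s : ℝ) ^ 10 := by ring
      rw [h8]
      have h9 : (s : ℝ) ^ 10 * 1 ≤ (s : ℝ) ^ 10 * l := mul_le_mul_of_nonneg_left hl1 (by positivity)
      nlinarith
    calc 24 * (s : ℝ) ^ 3 * Real.log (2 * H * L) ≤ 24 * (s : ℝ) ^ 3 * (26 * (s : ℝ) ^ 2 * y) :=
          mul_le_mul_of_nonneg_left h5 (by positivity)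
      _ = 624 * (s : ℝ) ^ 5 * y := by ring
      _ ≤ Real.sqrt R * Real.sqrt R :=
        mul_le_mul h7 h6 hy0 (Real.sqrt_nonneg _)
      _ = R := hsq
  · -- k6
    have h1 : 16 * (G ^ J * R * (J * T)) ≤ G ^ (2 * s ^ 2 + 2 * s + 1) := by
      have h2 : 16 * (G ^ J * R * (J * T)) = G ^ J * (8 * R * J * u) * G * (2 * L) := by
        rw [hT]
        ring
      rw [h2, ← hG]
      calc G ^ J * G * G * (2 * L) ≤ G ^ J * G * G * G ^ (2 * d + 1) :=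
            Nat.mul_le_mul_left _ h2L
        _ = G ^ (J + 2 + (2 * d + 1)) := by ring
        _ ≤ G ^ (2 * s ^ 2 + 2 * s + 1) := by
          apply Nat.pow_le_pow_right hGpos
          rw [hJ]
          omega
    have h3 : 170 * (G ^ J * R * (J * T)) ^ 3 ≤ H := by
      have h4 : (16 * (G ^ J * R * (J * T))) ^ 3 ≤ (G ^ (2 * s ^ 2 + 2 * s + 1)) ^ 3 :=
        Nat.pow_le_pow_left h1 3
      have h5 : (G ^ (2 * s ^ 2 + 2 * s + 1)) ^ 3 ≤ G ^ (12 * s ^ 2) := by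
        rw [← pow_mul]
        apply Nat.pow_le_pow_right hGpos
        nlinarith
      have h6 : G ^ (12 * s ^ 2) ≤ (R ^ 2) ^ (12 * s ^ 2) := Nat.pow_le_pow_left hGR _
      have h7 : (R ^ 2) ^ (12 * s ^ 2) = R ^ N := by
        rw [← pow_mul, hNs]
        congr 1
        ring
      have h8 : (16 * (G ^ J * R * (J * T))) ^ 3 = 4096 * (G ^ J * R * (J * T)) ^ 3 := by ring
      rw [h8] at h4
      have h9 : 170 * (G ^ J * R * (J * T)) ^ 3 ≤ 4096 * (G ^ J * R * (J * T)) ^ 3 :=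
        Nat.mul_le_mul_right _ (by norm_num)
      rw [h7] at h6
      exact h9.trans (h4.trans (h5.trans (h6.trans hR1)))
    exact_mod_cast h3

/-- the choice of the parameters -/
theorem baker_last {d H M : ℕ} (hd : 1 ≤ d) (hM : 3 ≤ M) (p : Fin (d + 1) → ℕ)
    (hp : ∀ i, (p i).Prime) (hinj : Function.Injective p) (hpM : ∀ i, p i ≤ M)
    (b : Fin (d + 1) → ℤ) (hb : b (Fin.last d) ≠ 0) (hbH : ∀ i, |b i| ≤ H)
    (hLL : |LL p b| ≤ Real.exp (-(H : ℝ) / 10)) :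
    (H : ℝ) < (10 ^ 7 * (d + 1) ^ 10 * Real.log M) ^ (24 * (d + 1) ^ 2) := by
  by_contra hcon
  rw [not_lt] at hcon
  obtain ⟨hH, L, K, R, T, J, G, hL, hR, hT, hG, hJ, hK, k1, k2, k3, k4, k5, k6⟩ :=
    BK_num hd hM hcon
  exact chain hd hH hM p hp hinj hpM b hb hbH hLL L K R T J G hL hR hT hG hJ hK k1 k2 k3 k4 k5 k6

end Pool.Agent.BK
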