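import Pool.Agent.Lib.BAKER.Defs
import Pool.Agent.Lib.BAKER.BakK

/-!
# Module BL: the theorem for all positions of a nonzero coefficient
-/

namespace Pool.Agent.BK

open Finset

theorem bl_swap {s : ℕ} (p : Fin s → ℕ) (b : Fin s → ℤ) (e : Equiv.Perm (Fin s)) :
    LL (p ∘ e) (b ∘ e) = LL p b := by
  unfold LL
  exact Equiv.sum_comp e (fun r => (b r : ℝ) * Real.log (p r))

theorem baker {s H M : ℕ} (hs : 2 ≤ s) (hM : 3 ≤ M) (p : Fin s → ℕ)
    (hp : ∀ i, (p i).Prime) (hinj : Function.Injective p) (hpM : ∀ i, p i ≤ M)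
    (b : Fin s → ℤ) (hb : b ≠ 0) (hbH : ∀ i, |b i| ≤ H)
    (hLL : |LL p b| ≤ Real.exp (-(H : ℝ) / 10)) :
    (H : ℝ) < (10 ^ 7 * s ^ 10 * Real.log M) ^ (24 * s ^ 2) := by
  obtain ⟨i0, hi0⟩ := Function.ne_iff.mp hb
  obtain ⟨d, rfl⟩ : ∃ d, s = d + 1 := ⟨s - 1, by omega⟩
  have h := baker_last (d := d) (H := H) (M := M) (by omega) hM (p ∘ Equiv.swap i0 (Fin.last d))
    (fun i => hp _) (hinj.comp (Equiv.swap i0 (Fin.last d)).injective) (fun i => hpM _)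
    (b ∘ Equiv.swap i0 (Fin.last d)) (by simpa using hi0) (fun i => hbH _)
    (by rw [bl_swap]; exact hLL)
  push_cast
  exact h

end Pool.Agent.BK
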