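import Mathlib

/-!
# A weak explicit form of Baker's theorem for logarithms of primes: definitions
-/

namespace Pool.Agent.BK

open Finset

/-- the integers `∏_r (b_s λ_r - b_r λ_s)^{m_r}` (`s` = the last index, `r` runs over the others) -/
def qq {d L : ℕ} (b : Fin (d + 1) → ℤ) (m : Fin d → ℕ) (a : Fin (d + 1) → Fin (L + 1)) : ℤ :=
  ∏ r : Fin d, (b (Fin.last d) * ((a r.castSucc : ℕ) : ℤ) -
    b r.castSucc * ((a (Fin.last d) : ℕ) : ℤ)) ^ m r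

/-- the integers `T(m, l) = ∑_λ c(λ) q_m(λ) ∏_r p_r^{λ_r l}` -/
def TT {d L : ℕ} (p : Fin (d + 1) → ℕ) (b : Fin (d + 1) → ℤ)
    (c : (Fin (d + 1) → Fin (L + 1)) → ℤ) (m : Fin d → ℕ) (l : ℕ) : ℤ :=
  ∑ a : Fin (d + 1) → Fin (L + 1), c a * qq b m a * ∏ r, (p r : ℤ) ^ ((a r : ℕ) * l)

/-- `A_λ = ∑_{r < s} (λ_r - (b_r / b_s) λ_s) log p_r` -/
noncomputable def AA {d L : ℕ} (p : Fin (d + 1) → ℕ) (b : Fin (d + 1) → ℤ)
    (a : Fin (d + 1) → Fin (L + 1)) : ℝ :=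
  ∑ r : Fin d, (((a r.castSucc : ℕ) : ℝ) -
    (b r.castSucc : ℝ) / (b (Fin.last d) : ℝ) * ((a (Fin.last d) : ℕ) : ℝ)) *
      Real.log (p r.castSucc)

/-- the auxiliary functions `f_m(z) = ∑_λ c(λ) q_m(λ) e^{A_λ z}` -/
noncomputable def ff {d L : ℕ} (p : Fin (d + 1) → ℕ) (b : Fin (d + 1) → ℤ)
    (c : (Fin (d + 1) → Fin (L + 1)) → ℤ) (m : Fin d → ℕ) (z : ℂ) : ℂ :=
  ∑ a : Fin (d + 1) → Fin (L + 1), (c a : ℂ) * (qq b m a : ℂ) * Complex.exp ((AA p b a : ℝ) * z)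

/-- the linear form `∑ b_r log p_r` -/
noncomputable def LL {s : ℕ} (p : Fin s → ℕ) (b : Fin s → ℤ) : ℝ :=
  ∑ r, (b r : ℝ) * Real.log (p r)

end Pool.Agent.BK
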